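import Pool.Agent.N913.KT.T1

set_option autoImplicit false
set_option linter.unusedSectionVars false

/-! Averages over one coordinate of the Newton form. -/

namespace Pool.Agent.N913.KT

open Finset Polynomial
open Pool.Agent.N913.MT (th th_nonneg th_le)
open Pool.Agent.N913.MG (BVz AP1)

/-- the polynomial with the low coefficients `c` added to `P` -/
noncomputable def pol {N : ℕ} (P : ℤ[X]) (c : Fin N → ℤ) : ℤ[X] := P + ∑ i, C (c i) * X ^ (i : ℕ)

/-- Newton basis -/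
noncomputable def Nw (t : ℕ → ℤ) (m : ℕ) : ℤ[X] := ∏ l ∈ range m, (X - C (t l))

/-- the determinant factor -/
def Dl (t : ℕ → ℤ) (m : ℕ) : ℤ := ∏ l ∈ range m, (t m - t l)

theorem Nw_eval (t : ℕ → ℤ) (m : ℕ) (x : ℤ) : (Nw t m).eval x = ∏ l ∈ range m, (x - t l) := by
  unfold Nw
  rw [eval_prod]
  apply prod_congr rfl
  intro l _
  rw [eval_sub, eval_X, eval_C]

theorem Nw_deg (t : ℕ → ℤ) (m : ℕ) : (Nw t m).natDegree = m := by
  unfold Nw
  rw [natDegree_finsetProd_X_sub_C_eq_card, card_range]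

theorem Nw_coeff (t : ℕ → ℤ) (T : ℕ) : ∀ m : ℕ, (∀ l < m, |t l| ≤ T) → ∀ i,
    |(Nw t m).coeff i| ≤ (1 + (T : ℤ)) ^ m := by
  intro m
  induction m with
  | zero =>
    intro _ i
    unfold Nw
    rw [range_zero, prod_empty, coeff_one, pow_zero]
    split_ifs <;> simp
  | succ m ih =>
    intro ht i
    have ih' := ih (fun l hl => ht l (by omega))
    have htm := ht m (by omega)
    have e : Nw t (m + 1) = Nw t m * (X - C (t m)) := by
      unfold Nw
      rw [prod_range_succ]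
    have hT0 : (0 : ℤ) ≤ T := Int.natCast_nonneg _
    rw [e]
    cases i with
    | zero =>
      rw [mul_coeff_zero, coeff_sub, coeff_X_zero, coeff_C_zero, zero_sub, mul_neg, abs_neg, abs_mul]
      calc |(Nw t m).coeff 0| * |t m| ≤ (1 + (T : ℤ)) ^ m * T :=
            mul_le_mul (ih' 0) htm (abs_nonneg _) (by positivity)
        _ ≤ (1 + (T : ℤ)) ^ m * (1 + T) := mul_le_mul_of_nonneg_left (by linarith) (by positivity)
        _ = _ := by rw [pow_succ]
    | succ i =>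
      rw [coeff_mul_X_sub_C]
      calc |(Nw t m).coeff i - (Nw t m).coeff (i + 1) * t m| ≤
            |(Nw t m).coeff i| + |(Nw t m).coeff (i + 1) * t m| := abs_sub _ _
        _ ≤ (1 + (T : ℤ)) ^ m + (1 + (T : ℤ)) ^ m * T := by
            apply add_le_add (ih' i)
            rw [abs_mul]
            exact mul_le_mul (ih' _) htm (abs_nonneg _) (by positivity)
        _ = _ := by rw [pow_succ]; ring

/-- the shift vector -/
noncomputable def sv (N : ℕ) (t : ℕ → ℤ) (m : ℕ) (w : ℤ) : Fin N → ℤ := fun i => w * (Nw t m).coeff i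

theorem pol_shift {N : ℕ} (P : ℤ[X]) (c : Fin N → ℤ) (t : ℕ → ℤ) (m : ℕ) (hm : m < N) (w : ℤ) :
    pol P (c + sv N t m w) = pol P c + C w * Nw t m := by
  unfold pol sv
  rw [add_assoc]
  congr 1
  have h1 : C w * Nw t m = ∑ i : Fin N, C (w * (Nw t m).coeff i) * X ^ (i : ℕ) := by
    conv_lhs => rw [as_sum_range' (Nw t m) N (by rw [Nw_deg]; exact hm)]
    rw [mul_sum, ← Fin.sum_univ_eq_sum_range (fun i => C w * monomial i ((Nw t m).coeff i))]
    apply sum_congr rfl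
    intro i _
    rw [← C_mul_X_pow_eq_monomial, C_mul, mul_assoc]
  rw [h1, ← sum_add_distrib]
  apply sum_congr rfl
  intro i _
  rw [Pi.add_apply, C_add, add_mul]

/-- the weights -/
noncomputable def Fw {N : ℕ} (P : ℤ[X]) (R : ℕ) (t : ℕ → ℤ) (m : ℕ) (c : Fin N → ℤ) : ℝ :=
  ∏ j ∈ range m, th R ((pol P c).eval (t j)).natAbs

theorem Fw_nonneg {N : ℕ} (P : ℤ[X]) (R : ℕ) (t : ℕ → ℤ) (m : ℕ) (c : Fin N → ℤ) :
    0 ≤ Fw P R t m c := prod_nonneg fun _ _ => th_nonneg _ _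

theorem Fw_shift {N : ℕ} (P : ℤ[X]) (R : ℕ) (t : ℕ → ℤ) (m : ℕ) (hm : m < N) (c : Fin N → ℤ) (w : ℤ) :
    Fw P R t (m + 1) (c + sv N t m w) =
      Fw P R t m c * th R ((pol P c).eval (t m) + w * Dl t m).natAbs := by
  unfold Fw
  rw [prod_range_succ, pol_shift P c t m hm w]
  congr 1
  · apply prod_congr rfl
    intro j hj
    rw [eval_add, eval_mul, eval_C, Nw_eval]
    have : ∏ l ∈ range m, (t j - t l) = 0 := prod_eq_zero hj (sub_self _)
    rw [this, mul_zero, add_zero]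
  · rw [eval_add, eval_mul, eval_C, Nw_eval]
    rfl

/-- congruences between values -/
theorem pol_mod {N : ℕ} (P : ℤ[X]) (c c' : Fin N → ℤ) (W : ℤ) (h : ∀ i, W ∣ c i - c' i) (x : ℤ) :
    W ∣ (pol P c).eval x - (pol P c').eval x := by
  unfold pol
  rw [eval_add, eval_add, eval_finsetSum, eval_finsetSum]
  have e : eval x P + ∑ i, eval x (C (c i) * X ^ (i : ℕ)) -
      (eval x P + ∑ i, eval x (C (c' i) * X ^ (i : ℕ))) =
      ∑ i : Fin N, (c i - c' i) * x ^ (i : ℕ) := by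
    have : ∀ c : Fin N → ℤ, ∑ i, eval x (C (c i) * X ^ (i : ℕ)) = ∑ i : Fin N, c i * x ^ (i : ℕ) := by
      intro c
      apply sum_congr rfl
      intro i _
      rw [eval_mul, eval_C, eval_pow, eval_X]
    rw [this, this, add_sub_add_left_eq_sub, ← sum_sub_distrib]
    apply sum_congr rfl
    intro i _
    ring
  rw [e]
  exact dvd_sum fun i _ => Dvd.dvd.mul_right (h i) _

theorem cop_class {N : ℕ} (P : ℤ[X]) (c c' : Fin N → ℤ) (W : ℕ) (h : ∀ i, (W : ℤ) ∣ c i - c' i) (x : ℤ) :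
    ((pol P c).eval x).natAbs.Coprime W ↔ ((pol P c').eval x).natAbs.Coprime W := by
  have key : ∀ a b : ℤ, (W : ℤ) ∣ a - b → a.natAbs.Coprime W → b.natAbs.Coprime W := by
    intro a b hab ha
    have h1 : IsCoprime a (W : ℤ) := by
      rw [Int.isCoprime_iff_gcd_eq_one]
      exact ha
    obtain ⟨z, hz⟩ := hab
    have e : b = a + W * (-z) := by linarith
    have h2 : IsCoprime b (W : ℤ) := by
      rw [e]
      exact h1.add_mul_left_left _
    rw [Int.isCoprime_iff_gcd_eq_one] at h2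
    exact h2
  have h1 := pol_mod P c c' (W : ℤ) h x
  exact ⟨key _ _ h1, key _ _ (by rw [← dvd_neg, neg_sub]; exact h1)⟩

theorem Dl_ne (t : ℕ → ℤ) (m : ℕ) (hinj : ∀ l < m, t l ≠ t m) : Dl t m ≠ 0 := by
  unfold Dl
  rw [prod_ne_zero_iff]
  intro l hl
  exact sub_ne_zero.2 (hinj l (mem_range.1 hl)).symm

theorem Dl_le (t : ℕ → ℤ) (m T : ℕ) (hT : ∀ l ≤ m, |t l| ≤ T) : (Dl t m).natAbs ≤ (2 * T) ^ m := by
  have h : |Dl t m| ≤ ((2 * T : ℕ) : ℤ) ^ m := by
    unfold Dl
    rw [abs_prod]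
    refine (prod_le_prod (fun _ _ => abs_nonneg _) (g := fun _ => ((2 * T : ℕ) : ℤ)) ?_).trans
      (le_of_eq ?_)
    · intro l hl
      have h1 := hT l (mem_range.1 hl).le
      have h2 := hT m le_rfl
      have h3 := abs_sub (t m) (t l)
      push_cast
      linarith
    · rw [prod_const, card_range]
  have h2 : (((Dl t m).natAbs : ℕ) : ℤ) ≤ (((2 * T) ^ m : ℕ) : ℤ) := by
    rw [Int.natCast_natAbs]; push_cast at h ⊢; exact h
  exact_mod_cast h2

theorem prime_Dl (t : ℕ → ℤ) (m T : ℕ) (hT : ∀ l ≤ m, |t l| ≤ T) (hinj : ∀ l < m, t l ≠ t m) (p : ℕ)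
    (hp : p.Prime) (h : p ∣ (Dl t m).natAbs) : p ≤ 2 * T ∧ ∃ l < m, (p : ℤ) ∣ t m - t l := by
  have h1 : (p : ℤ) ∣ Dl t m := Int.natCast_dvd.2 h
  unfold Dl at h1
  obtain ⟨l, hl, h2⟩ := (Prime.dvd_finsetProd_iff (Nat.prime_iff_prime_int.1 hp) _).1 h1
  rw [mem_range] at hl
  refine ⟨?_, l, hl, h2⟩
  have h3 := hT l hl.le
  have h4 := hT m le_rfl
  have h5 : |t m - t l| ≤ 2 * T := (abs_sub _ _).trans (by linarith)
  have h6 : t m - t l ≠ 0 := sub_ne_zero.2 (hinj l hl).symm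
  have h7 := Int.le_of_dvd (abs_pos.2 h6) ((dvd_abs _ _).2 h2)
  have h8 : (p : ℤ) ≤ ((2 * T : ℕ) : ℤ) := by push_cast; linarith
  exact_mod_cast h8

/-- averaging over one coordinate -/
theorem step {N : ℕ} (P : ℤ[X]) (R Y : ℕ) (M : ℕ → ℝ) (hM : BVz R Y M) (hM0 : ∀ q, 0 ≤ M q)
    (W : ℕ) (hW : 1 ≤ W) (H σ U T : ℕ) (hU : 1 ≤ U) (cs : Fin N → ℤ) (t : ℕ → ℤ) (m : ℕ) (hm : m < N)
    (hT : ∀ l ≤ m, |t l| ≤ T) (hinj : ∀ l < m, t l ≠ t m)
    (hWR : ∀ p : ℕ, p.Prime → p ∣ W → p ≤ R) (hTR : 2 * T ≤ R)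
    (hcl : ((pol P cs).eval (t m)).natAbs.Coprime W)
    (hσ : W * U * (1 + T) ^ m ≤ σ)
    (hY : ∀ c : Fin N → ℤ, (∀ i, |c i| ≤ H + σ) → ∀ x : ℤ, |x| ≤ T →
      |(pol P c).eval x| + (W * (2 * T) ^ m * U : ℕ) + 1 ≤ Y) :
    |∑ c ∈ Bx H W cs, Fw P R t (m + 1) c -
      (((W * (Dl t m).natAbs : ℕ) : ℝ) / Nat.totient (W * (Dl t m).natAbs)) *
        ∑ c ∈ Bx H W cs, Fw P R t m c| ≤
      2 * M (W * (Dl t m).natAbs) / U * ∑ c ∈ Bx H W cs, Fw P R t m c +
        Real.log Y ^ (m + 1) * (strip H W σ cs).card := by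
  have hΔ := Dl_ne t m hinj
  have hΔle := Dl_le t m T hT
  have hU0 : (0 : ℝ) < U := by exact_mod_cast hU
  obtain ⟨ρ, hρ⟩ : ∃ ρ : ℝ, ρ = ((W * (Dl t m).natAbs : ℕ) : ℝ) / Nat.totient (W * (Dl t m).natAbs) :=
    ⟨_, rfl⟩
  rw [← hρ]
  obtain ⟨L, hL⟩ : ∃ L, L = Real.log Y := ⟨_, rfl⟩
  rw [← hL]
  have hL0 : 0 ≤ L := by rw [hL]; exact Real.log_natCast_nonneg Y
  -- bounds
  have hbd : ∀ c : Fin N → ℤ, (∀ i, |c i| ≤ H + σ) → Fw P R t (m + 1) c ≤ L ^ (m + 1) := by
    intro c hc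
    unfold Fw
    refine (prod_le_prod (fun _ _ => th_nonneg _ _) (g := fun _ => L) ?_).trans (le_of_eq ?_)
    · intro j hj
      rw [hL]
      apply th_le
      have h1 := hY c hc (t j) (hT j (by have := mem_range.1 hj; omega))
      have h2 : (0 : ℤ) ≤ ((W * (2 * T) ^ m * U : ℕ) : ℤ) := by positivity
      have h3 : ((((pol P c).eval (t j)).natAbs : ℕ) : ℤ) ≤ Y := by
        rw [Int.natCast_natAbs]; linarith
      exact_mod_cast h3
    · rw [prod_const, card_range]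
  -- translations
  have h1 : ∀ u ∈ range U, |∑ c ∈ Bx H W cs, Fw P R t (m + 1) (c + sv N t m (W * u)) -
      ∑ c ∈ Bx H W cs, Fw P R t (m + 1) c| ≤ L ^ (m + 1) * (strip H W σ cs).card := by
    intro u hu
    rw [mem_range] at hu
    have hsσ : ∀ i, |sv N t m (W * u) i| ≤ σ := by
      intro i
      unfold sv
      rw [abs_mul]
      have h2 := Nw_coeff t T m (fun l hl => hT l hl.le) i
      have h3 : |(W : ℤ) * u| ≤ W * U := by
        rw [abs_of_nonneg (by positivity)]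
        exact mul_le_mul_of_nonneg_left (by exact_mod_cast hu.le) (by positivity)
      calc |(W : ℤ) * u| * |(Nw t m).coeff i| ≤ (W * U) * (1 + (T : ℤ)) ^ m :=
            mul_le_mul h3 h2 (abs_nonneg _) (by positivity)
        _ = ((W * U * (1 + T) ^ m : ℕ) : ℤ) := by push_cast; ring
        _ ≤ σ := by exact_mod_cast hσ
    apply transl H W σ cs (sv N t m (W * u)) (fun i => by unfold sv; exact Dvd.dvd.mul_right (Dvd.intro _ rfl) _)
      hsσ _ (fun c => Fw_nonneg P R t (m + 1) c)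
    · intro c hc
      rw [mem_Bx] at hc
      apply hbd
      intro i
      rw [Pi.add_apply]
      have := abs_add_le (c i) (sv N t m (W * u) i)
      linarith [(hc i).1, hsσ i]
    · intro c hc
      rw [mem_Bx] at hc
      apply hbd
      intro i
      have : (0 : ℤ) ≤ σ := Int.natCast_nonneg _
      linarith [(hc i).1]
  -- the inner sums
  have h2 : ∀ c ∈ Bx H W cs, |∑ u ∈ range U, Fw P R t (m + 1) (c + sv N t m (W * u)) -
      U * ρ * Fw P R t m c| ≤ 2 * M (W * (Dl t m).natAbs) * Fw P R t m c := by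
    intro c hc
    rw [mem_Bx] at hc
    have e1 : ∑ u ∈ range U, Fw P R t (m + 1) (c + sv N t m (W * u)) =
        Fw P R t m c * ∑ u ∈ range U, th R ((pol P c).eval (t m) + W * u * Dl t m).natAbs := by
      rw [mul_sum]
      exact sum_congr rfl fun u _ => Fw_shift P R t m hm c _
    by_cases h0 : Fw P R t m c = 0
    · rw [e1, h0]; simp
    · have hF0 := Fw_nonneg P R t m c
      have hpr : ∀ l < m, ((pol P c).eval (t l)).natAbs.Prime ∧ R < ((pol P c).eval (t l)).natAbs := by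
        intro l hl
        unfold Fw at h0
        change _ ≠ _ at h0
        rw [prod_ne_zero_iff] at h0
        have h3 := h0 l (mem_range.2 hl)
        unfold th at h3
        by_contra hcon
        exact h3 (if_neg hcon)
      have hcop : ((pol P c).eval (t m)).natAbs.Coprime (W * (Dl t m).natAbs) := by
        apply Nat.Coprime.mul_right
        · exact (cop_class P c cs W (fun i => (hc i).2) (t m)).2 hcl
        · rw [Nat.coprime_iff_gcd_eq_one]
          by_contra hne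
          obtain ⟨p, hp, hpd⟩ := Nat.exists_prime_and_dvd hne
          have g1 := hpd.trans (Nat.gcd_dvd_left _ _)
          have g2 := hpd.trans (Nat.gcd_dvd_right _ _)
          obtain ⟨g3, l, hl, g4⟩ := prime_Dl t m T hT hinj p hp g2
          have g5 : (p : ℤ) ∣ (pol P c).eval (t m) - (pol P c).eval (t l) :=
            g4.trans (sub_dvd_eval_sub _ _ _)
          have g6 : (p : ℤ) ∣ (pol P c).eval (t m) := Int.natCast_dvd.2 g1
          have g7 : (p : ℤ) ∣ (pol P c).eval (t l) := by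
            have := dvd_sub g6 g5
            simpa using this
          have g8 := Int.natCast_dvd.1 g7
          have g9 := (Nat.prime_dvd_prime_iff_eq hp (hpr l hl).1).1 g8
          have g10 := (hpr l hl).2
          omega
      have hYc := hY c (fun i => by
        have : (0 : ℤ) ≤ σ := Int.natCast_nonneg _
        linarith [(hc i).1]) (t m) (hT m le_rfl)
      have h3 := one R Y M hM hM0 W hW (Dl t m) hΔ (by
        intro p hp hpd
        rcases (Nat.Prime.dvd_mul hp).1 hpd with g | g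
        · exact hWR p hp g
        · exact (prime_Dl t m T hT hinj p hp g).1.trans hTR) ((pol P c).eval (t m)) U (by
        refine le_trans ?_ hYc
        have : W * (Dl t m).natAbs * U ≤ W * (2 * T) ^ m * U := by gcongr
        have h5 : ((W * (Dl t m).natAbs * U : ℕ) : ℤ) ≤ ((W * (2 * T) ^ m * U : ℕ) : ℤ) := by
          exact_mod_cast this
        linarith) hcop
      rw [← hρ] at h3
      rw [e1]
      have e2 : Fw P R t m c * ∑ u ∈ range U, th R ((pol P c).eval (t m) + W * u * Dl t m).natAbs -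
          U * ρ * Fw P R t m c = Fw P R t m c *
          (∑ u ∈ range U, th R ((pol P c).eval (t m) + W * u * Dl t m).natAbs - U * ρ) := by ring
      rw [e2, abs_mul, abs_of_nonneg hF0, mul_comm]
      exact mul_le_mul_of_nonneg_right h3 hF0
  -- combination
  obtain ⟨A1, hA1⟩ : ∃ A1, A1 = ∑ c ∈ Bx H W cs, Fw P R t (m + 1) c := ⟨_, rfl⟩
  obtain ⟨A0, hA0⟩ : ∃ A0, A0 = ∑ c ∈ Bx H W cs, Fw P R t m c := ⟨_, rfl⟩
  obtain ⟨D, hD⟩ : ∃ D, D = ∑ u ∈ range U, ∑ c ∈ Bx H W cs, Fw P R t (m + 1) (c + sv N t m (W * u)) :=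
    ⟨_, rfl⟩
  have h3 : |D - U * A1| ≤ U * (L ^ (m + 1) * (strip H W σ cs).card) := by
    have e : D - U * A1 = ∑ u ∈ range U, (∑ c ∈ Bx H W cs, Fw P R t (m + 1) (c + sv N t m (W * u)) -
        ∑ c ∈ Bx H W cs, Fw P R t (m + 1) c) := by
      rw [sum_sub_distrib, sum_const, card_range, nsmul_eq_mul, hD, hA1]
    rw [e]
    refine (abs_sum_le_sum_abs _ _).trans ((sum_le_card_nsmul _ _ _ h1).trans (le_of_eq ?_))
    rw [card_range, nsmul_eq_mul]
  have h4 : |D - U * ρ * A0| ≤ 2 * M (W * (Dl t m).natAbs) * A0 := by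
    have e : D - U * ρ * A0 = ∑ c ∈ Bx H W cs,
        (∑ u ∈ range U, Fw P R t (m + 1) (c + sv N t m (W * u)) - U * ρ * Fw P R t m c) := by
      rw [sum_sub_distrib, ← mul_sum, ← hA0, sum_comm, ← hD]
    rw [e]
    refine (abs_sum_le_sum_abs _ _).trans ((sum_le_sum h2).trans (le_of_eq ?_))
    rw [← mul_sum, hA0]
  rw [← hA1, ← hA0]
  have h5 : U * |A1 - ρ * A0| ≤ 2 * M (W * (Dl t m).natAbs) * A0 +
      U * (L ^ (m + 1) * (strip H W σ cs).card) := by
    have e : U * |A1 - ρ * A0| = |U * A1 - U * ρ * A0| := by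
      rw [← abs_of_pos hU0, ← abs_mul, abs_of_pos hU0]
      congr 1
      ring
    rw [e]
    have h6 : U * A1 - U * ρ * A0 = (D - U * ρ * A0) - (D - U * A1) := by ring
    rw [h6]
    exact (abs_sub _ _).trans (add_le_add h4 h3)
  have h6 : |A1 - ρ * A0| ≤ (2 * M (W * (Dl t m).natAbs) * A0 +
      U * (L ^ (m + 1) * (strip H W σ cs).card)) / U := by
    rw [le_div_iff₀ hU0, mul_comm]
    exact h5
  refine h6.trans (le_of_eq ?_)
  field_simp

end Pool.Agent.N913.KT
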