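import Pool.Agent.N913.KT.T3

set_option autoImplicit false
set_option linter.unusedSectionVars false

/-! Concentration in a class. -/

namespace Pool.Agent.N913.KT

open Finset Polynomial
open Pool.Agent.N913.MT (th th_nonneg th_le tot_prod)
open Pool.Agent.N913.MG (BVz AP1 kappa2)

theorem conc2 {α : Type} (Ω : Finset α) (I : Finset ℕ) (w : ℕ → α → ℝ) (c e1 e2 D : ℝ) (K0 : ℕ)
    (bad : ℕ → ℕ → Prop) [∀ g, DecidablePred (bad g)] (hc : 0 ≤ c) (he2 : 0 ≤ e2) (hD : 0 ≤ D)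
    (h1 : ∀ g ∈ I, Ω.card * c - e1 ≤ ∑ n ∈ Ω, w g n)
    (h2 : ∀ g ∈ I, ∀ g' ∈ I, ¬ bad g g' → ∑ n ∈ Ω, w g n * w g' n ≤ Ω.card * c ^ 2 + e2)
    (h3 : ∀ g ∈ I, ∀ g' ∈ I, ∑ n ∈ Ω, w g n * w g' n ≤ D)
    (h4 : ∀ g ∈ I, (I.filter (fun g' => bad g g')).card ≤ K0) :
    ∑ n ∈ Ω, (∑ g ∈ I, w g n - I.card * c) ^ 2 ≤
      (I.card : ℝ) ^ 2 * (e2 + 2 * c * e1) + I.card * K0 * D := by
  have hexp : ∀ n, (∑ g ∈ I, w g n - I.card * c) ^ 2 =
      ∑ g ∈ I, ∑ g' ∈ I, w g n * w g' n - 2 * (I.card * c) * ∑ g ∈ I, w g n +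
        (I.card * c) ^ 2 := by
    intro n
    rw [← sum_mul_sum]
    ring
  rw [sum_congr rfl (fun n _ => hexp n), sum_add_distrib, sum_sub_distrib]
  have a1 : ∑ n ∈ Ω, ∑ g ∈ I, ∑ g' ∈ I, w g n * w g' n ≤
      I.card * (I.card * (Ω.card * c ^ 2 + e2) + K0 * D) := by
    rw [sum_comm]
    have b1 : ∀ g ∈ I, ∑ n ∈ Ω, ∑ g' ∈ I, w g n * w g' n ≤
        I.card * (Ω.card * c ^ 2 + e2) + K0 * D := by
      intro g hg
      rw [sum_comm, ← sum_filter_add_sum_filter_not I (fun g' => ¬ bad g g')]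
      have hpos : 0 ≤ Ω.card * c ^ 2 + e2 := by positivity
      apply add_le_add
      · have b2 : ∀ g' ∈ I.filter (fun g' => ¬ bad g g'), ∑ n ∈ Ω, w g n * w g' n ≤
            Ω.card * c ^ 2 + e2 := by
          intro g' hg'
          rw [mem_filter] at hg'
          exact h2 g hg g' hg'.1 hg'.2
        refine (sum_le_card_nsmul _ _ _ b2).trans ?_
        rw [nsmul_eq_mul]
        apply mul_le_mul_of_nonneg_right _ hpos
        exact_mod_cast card_le_card (filter_subset _ _)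
      · have b2 : ∀ g' ∈ I.filter (fun g' => ¬ ¬ bad g g'), ∑ n ∈ Ω, w g n * w g' n ≤ D := by
          intro g' hg'
          rw [mem_filter] at hg'
          exact h3 g hg g' hg'.1
        refine (sum_le_card_nsmul _ _ _ b2).trans ?_
        rw [nsmul_eq_mul]
        apply mul_le_mul_of_nonneg_right _ hD
        have h5 := h4 g hg
        have h6 : I.filter (fun g' => ¬ ¬ bad g g') = I.filter (fun g' => bad g g') := by
          apply filter_congr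
          intro x _
          rw [not_not]
        rw [h6]
        exact_mod_cast h5
    refine (sum_le_card_nsmul _ _ _ b1).trans (le_of_eq ?_)
    rw [nsmul_eq_mul]
  have a2 : (I.card : ℝ) * (Ω.card * c - e1) ≤ ∑ n ∈ Ω, ∑ g ∈ I, w g n := by
    rw [sum_comm]
    have := card_nsmul_le_sum I (fun g => ∑ n ∈ Ω, w g n) (Ω.card * c - e1) h1
    rw [nsmul_eq_mul] at this
    exact this
  have a3 : ∑ _n ∈ Ω, ((I.card : ℝ) * c) ^ 2 = Ω.card * (I.card * c) ^ 2 := by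
    rw [sum_const, nsmul_eq_mul]
  have a4 : 2 * ((I.card : ℝ) * c) * ((I.card : ℝ) * (Ω.card * c - e1)) ≤
      ∑ n ∈ Ω, 2 * (I.card * c) * ∑ g ∈ I, w g n := by
    rw [← mul_sum]
    exact mul_le_mul_of_nonneg_left a2 (by positivity)
  rw [a3]
  nlinarith

theorem cheb2 {α : Type} (Ω : Finset α) (S : α → ℝ) (m V δ : ℝ) (hm : 0 ≤ m) (hδ : 0 ≤ δ)
    (hV : ∑ n ∈ Ω, (S n - m) ^ 2 ≤ V) :
    ((Ω.filter (fun n => δ * m ≤ |S n - m|)).card : ℝ) * (δ * m) ^ 2 ≤ V := by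
  have h1 : ((Ω.filter (fun n => δ * m ≤ |S n - m|)).card : ℝ) * (δ * m) ^ 2 ≤
      ∑ n ∈ Ω.filter (fun n => δ * m ≤ |S n - m|), (S n - m) ^ 2 := by
    rw [← nsmul_eq_mul]
    apply card_nsmul_le_sum
    intro n hn
    rw [← sq_abs (S n - m)]
    exact pow_le_pow_left₀ (by positivity) (mem_filter.1 hn).2 2
  have h2 : ∑ n ∈ Ω.filter (fun n => δ * m ≤ |S n - m|), (S n - m) ^ 2 ≤ ∑ n ∈ Ω, (S n - m) ^ 2 :=
    sum_le_sum_of_subset_of_nonneg (filter_subset _ _) (fun _ _ _ => sq_nonneg _)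
  linarith

/-- the positions of a pair -/
def pr (k : ℕ) (t t' : ℕ → ℤ) : ℕ → ℤ := fun j => if j < k then t j else t' (j - k)

theorem Fw_pr {N : ℕ} (P : ℤ[X]) (R k : ℕ) (t t' : ℕ → ℤ) (c : Fin N → ℤ) :
    Fw P R (pr k t t') (2 * k) c = Fw P R t k c * Fw P R t' k c := by
  unfold Fw
  rw [two_mul, prod_range_add]
  congr 1
  · apply prod_congr rfl
    intro j hj
    unfold pr
    rw [if_pos (mem_range.1 hj)]
  · apply prod_congr rfl
    intro j _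
    unfold pr
    rw [if_neg (by omega), Nat.add_sub_cancel_left]

theorem classT (k : ℕ) (P : ℤ[X]) (R Y : ℕ) (M : ℕ → ℝ) (hM : BVz R Y M) (hM0 : ∀ q, 0 ≤ M q)
    (W z0 : ℕ) (hW : 1 ≤ W) (hz : 2 ≤ z0) (hWz : ∀ p : ℕ, p.Prime → ¬ p ∣ W → z0 ≤ p)
    (H σ U T : ℕ) (hU : 1 ≤ U) (cs : Fin (2 * k) → ℤ)
    (hWR : ∀ p : ℕ, p.Prime → p ∣ W → p ≤ R) (hTR : 2 * T ≤ R)
    (hσ : W * U * (1 + T) ^ (2 * k) ≤ σ)
    (hY : ∀ c : Fin (2 * k) → ℤ, (∀ i, |c i| ≤ H + σ) → ∀ x : ℤ, |x| ≤ T →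
      |(pol P c).eval x| + (W * (2 * T) ^ (2 * k) * U : ℕ) + 1 ≤ Y) (hT1 : 1 ≤ T)
    (η : ℝ) (hη0 : 0 ≤ η) (hη : η ≤ 1 / 2)
    (hδη : Real.log ((2 * T : ℕ) ^ (2 * k) : ℕ) ≤ η * (z0 * Real.log z0))
    (ξ : ℝ) (hξ0 : 0 ≤ ξ) (hξ1 : ξ ≤ 1)
    (hξM : ∀ δ : ℕ, 1 ≤ δ → δ ≤ (2 * T) ^ (2 * k) → 2 * M (W * δ) / U ≤ ξ)
    (hL : 1 ≤ Real.log Y)
    (hξs : Real.log Y ^ (2 * k) * (strip H W σ cs).card ≤ ξ * (Bx H W cs).card)
    (I : Finset ℕ) (hI : I.Nonempty) (ps : ℕ → ℕ → ℤ) (hps : ∀ n ∈ I, ∀ i < k, |ps n i| ≤ T)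
    (hd : ∀ n ∈ I, ∀ i < k, ∀ j < k, i ≠ j → ps n i ≠ ps n j)
    (hcop : ∀ n ∈ I, ∀ i < k, ((pol P cs).eval (ps n i)).natAbs.Coprime W)
    (K0 : ℕ) (hK0 : ∀ n ∈ I, (I.filter (fun n' => ∃ i < k, ∃ j < k, ps n i = ps n' j)).card ≤ K0)
    (δ : ℝ) (hδ : 0 < δ) :
    (((Bx H W cs).filter (fun c => δ * (I.card * ((W : ℝ) / Nat.totient W) ^ k) ≤
      |∑ n ∈ I, Fw P R (ps n) k c - I.card * ((W : ℝ) / Nat.totient W) ^ k|)).card : ℝ) * δ ^ 2 ≤
      (Bx H W cs).card * (((1 + 2 * η) ^ (2 * k) - 1) + 4 * k * ξ * 16 ^ k +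
        K0 * ((k + 1) * 4 ^ k * Real.log Y ^ k) / I.card) := by
  classical
  obtain ⟨ω, hω⟩ : ∃ ω, ω = (W : ℝ) / Nat.totient W := ⟨_, rfl⟩
  obtain ⟨L, hLL⟩ : ∃ L, L = Real.log Y := ⟨_, rfl⟩
  obtain ⟨A, hA⟩ : ∃ A : ℝ, A = (Bx H W cs).card := ⟨_, rfl⟩
  have hA0 : 0 ≤ A := by rw [hA]; exact Nat.cast_nonneg _
  have hω1 : 1 ≤ ω := by
    have h1 : (0 : ℝ) < Nat.totient W := by exact_mod_cast Nat.totient_pos.2 hW
    rw [hω, le_div_iff₀ h1, one_mul]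
    exact_mod_cast Nat.totient_le W
  have hmom : ∀ n : ℕ, n ≤ 2 * k → ∀ t : ℕ → ℤ, (∀ l < n, |t l| ≤ T) →
      (∀ l < n, ∀ l' < n, l ≠ l' → t l ≠ t l') →
      (∀ l < n, ((pol P cs).eval (t l)).natAbs.Coprime W) →
      A * ω ^ n - n * ξ * A * (2 * ω + 2) ^ n ≤ ∑ c ∈ Bx H W cs, Fw P R t n c ∧
      ∑ c ∈ Bx H W cs, Fw P R t n c ≤ A * ((1 + 2 * η) * ω) ^ n + n * ξ * A * (2 * ω + 2) ^ n := by
    intro n hn t ht1 ht2 ht3
    have := moment P R Y M hM hM0 W z0 hW hz hWz H σ U T hU cs t n hn ht1 ht2 hWR hTR ht3 hσ hY hT1 η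
      hη0 hη hδη ξ hξ0 hξ1 hξM hL hξs
    rw [← hω, ← hA] at this
    exact this
  have hthL : ∀ c ∈ Bx H W cs, ∀ n ∈ I, Fw P R (ps n) k c ≤ L ^ k := by
    intro c hc n hn
    rw [mem_Bx] at hc
    unfold Fw
    refine (prod_le_prod (fun _ _ => th_nonneg _ _) (g := fun _ => L) ?_).trans (le_of_eq ?_)
    · intro j hj
      rw [hLL]
      apply th_le
      have h1 := hY c (fun i => by
        have : (0 : ℤ) ≤ σ := Int.natCast_nonneg _
        linarith [(hc i).1]) (ps n j) (hps n hn j (mem_range.1 hj))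
      have h2 : (0 : ℤ) ≤ ((W * (2 * T) ^ (2 * k) * U : ℕ) : ℤ) := by positivity
      have h3 : ((((pol P c).eval (ps n j)).natAbs : ℕ) : ℤ) ≤ Y := by
        rw [Int.natCast_natAbs]; linarith
      exact_mod_cast h3
    · rw [prod_const, card_range]
  have hL1 : 1 ≤ L := by rw [hLL]; exact hL
  have hIc : (1 : ℝ) ≤ I.card := by exact_mod_cast hI.card_pos
  obtain ⟨e1, he1⟩ : ∃ e1, e1 = k * ξ * A * (2 * ω + 2) ^ k := ⟨_, rfl⟩
  obtain ⟨e2, he2⟩ : ∃ e2, e2 = A * (((1 + 2 * η) * ω) ^ (2 * k) - ω ^ (2 * k)) +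
    ((2 * k : ℕ) : ℝ) * ξ * A * (2 * ω + 2) ^ (2 * k) := ⟨_, rfl⟩
  have hηω : ω ≤ (1 + 2 * η) * ω := by nlinarith
  have hpω : ω ^ (2 * k) ≤ ((1 + 2 * η) * ω) ^ (2 * k) := pow_le_pow_left₀ (by linarith) hηω _
  have he20 : 0 ≤ e2 := by
    rw [he2]
    have : 0 ≤ ((1 + 2 * η) * ω) ^ (2 * k) - ω ^ (2 * k) := by linarith
    positivity
  have hV := conc2 (Bx H W cs) I (fun n c => Fw P R (ps n) k c) (ω ^ k) e1 e2 (A * ((k + 1) * 4 ^ k * L ^ k) * ω ^ k) K0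
    (fun n n' => ∃ i < k, ∃ j < k, ps n i = ps n' j) (by positivity) he20 (by positivity)
    (fun n hn => by
      rw [← hA, he1]
      exact (hmom k (by omega) (ps n) (hps n hn) (hd n hn) (hcop n hn)).1)
    (fun n hn n' hn' hb => by
      push Not at hb
      have h1 := (hmom (2 * k) le_rfl (pr k (ps n) (ps n')) (by
        intro l hl
        unfold pr
        split_ifs with h
        · exact hps n hn l h
        · exact hps n' hn' (l - k) (by omega)) (by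
        intro l hl l' hl' hne
        unfold pr
        split_ifs with h h' h'
        · exact hd n hn l h l' h' hne
        · exact hb l h (l' - k) (by omega)
        · exact (hb l' h' (l - k) (by omega)).symm
        · exact hd n' hn' (l - k) (by omega) (l' - k) (by omega) (by omega)) (by
        intro l hl
        unfold pr
        split_ifs with h
        · exact hcop n hn l h
        · exact hcop n' hn' (l - k) (by omega))).2
      have h2 : ∑ c ∈ Bx H W cs, Fw P R (pr k (ps n) (ps n')) (2 * k) c =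
          ∑ c ∈ Bx H W cs, Fw P R (ps n) k c * Fw P R (ps n') k c :=
        sum_congr rfl fun c _ => Fw_pr P R k (ps n) (ps n') c
      rw [h2] at h1
      rw [← hA, he2]
      refine h1.trans (le_of_eq ?_)
      rw [← pow_mul, mul_comm k 2]
      ring)
    (fun n hn n' hn' => by
      have h1 : ∑ c ∈ Bx H W cs, Fw P R (ps n) k c * Fw P R (ps n') k c ≤
          (∑ c ∈ Bx H W cs, Fw P R (ps n) k c) * L ^ k := by
        rw [sum_mul]
        apply sum_le_sum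
        intro c hc
        exact mul_le_mul_of_nonneg_left (hthL c hc n' hn') (Fw_nonneg _ _ _ _ _)
      refine h1.trans ?_
      have h2 := (hmom k (by omega) (ps n) (hps n hn) (hd n hn) (hcop n hn)).2
      have h3 : A * ((1 + 2 * η) * ω) ^ k + k * ξ * A * (2 * ω + 2) ^ k ≤
          A * ((k + 1) * 4 ^ k) * ω ^ k := by
        have g1 : ((1 + 2 * η) * ω) ^ k ≤ 4 ^ k * ω ^ k := by
          rw [← mul_pow]
          apply pow_le_pow_left₀ (by positivity)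
          nlinarith
        have g2 : (2 * ω + 2) ^ k ≤ 4 ^ k * ω ^ k := by
          rw [← mul_pow]
          apply pow_le_pow_left₀ (by positivity)
          linarith
        calc A * ((1 + 2 * η) * ω) ^ k + k * ξ * A * (2 * ω + 2) ^ k ≤
              A * (4 ^ k * ω ^ k) + k * 1 * A * (4 ^ k * ω ^ k) := by gcongr
          _ = _ := by ring
      calc (∑ c ∈ Bx H W cs, Fw P R (ps n) k c) * L ^ k ≤ (A * ((k + 1) * 4 ^ k) * ω ^ k) * L ^ k :=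
            mul_le_mul_of_nonneg_right (h2.trans h3) (by positivity)
        _ = _ := by ring)
    hK0
  have hωk : 1 ≤ ω ^ k := one_le_pow₀ hω1
  have hωk0 : 0 < ω ^ k := by linarith
  have hIω : 0 < (I.card : ℝ) * ω ^ k := by positivity
  have h1 := cheb2 (Bx H W cs) (fun c => ∑ n ∈ I, Fw P R (ps n) k c) (I.card * ω ^ k) _ δ hIω.le hδ.le hV
  rw [← hω, ← hLL, ← hA]
  obtain ⟨B, hB⟩ : ∃ B : ℝ, B = ((Bx H W cs).filter (fun c => δ * (I.card * ω ^ k) ≤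
      |∑ n ∈ I, Fw P R (ps n) k c - I.card * ω ^ k|)).card := ⟨_, rfl⟩
  rw [← hB] at h1 ⊢
  have h2ω : 2 * ω + 2 ≤ 4 * ω := by linarith
  have hpk : (2 * ω + 2) ^ k ≤ 4 ^ k * ω ^ k := by
    rw [← mul_pow]; exact pow_le_pow_left₀ (by linarith) h2ω k
  have hp2k : (2 * ω + 2) ^ (2 * k) ≤ 16 ^ k * (ω ^ k) ^ 2 := by
    calc (2 * ω + 2) ^ (2 * k) ≤ (4 * ω) ^ (2 * k) := pow_le_pow_left₀ (by linarith) h2ω _
      _ = 16 ^ k * (ω ^ k) ^ 2 := by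
          rw [mul_pow, pow_mul 4 2 k, show (4 : ℝ) ^ 2 = 16 by norm_num, ← pow_mul, mul_comm k 2]
  have h416 : (4 : ℝ) ^ k ≤ 16 ^ k := pow_le_pow_left₀ (by norm_num) (by norm_num) k
  -- main inequality
  have hk0 : (0 : ℝ) ≤ k := Nat.cast_nonneg _
  have hbound : (I.card : ℝ) ^ 2 * (e2 + 2 * ω ^ k * e1) +
      I.card * K0 * (A * ((k + 1) * 4 ^ k * L ^ k) * ω ^ k) ≤
      (A * (((1 + 2 * η) ^ (2 * k) - 1) + 4 * k * ξ * 16 ^ k +
        K0 * ((k + 1) * 4 ^ k * L ^ k) / I.card)) * (I.card * ω ^ k) ^ 2 := by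
    have b1 : e2 ≤ A * (((1 + 2 * η) ^ (2 * k) - 1) + 2 * k * ξ * 16 ^ k) * (ω ^ k) ^ 2 := by
      have e : ((1 + 2 * η) * ω) ^ (2 * k) - ω ^ (2 * k) = ((1 + 2 * η) ^ (2 * k) - 1) * (ω ^ k) ^ 2 := by
        rw [mul_pow, ← pow_mul, mul_comm k 2]; ring
      rw [he2, e]
      have b2 : ((2 * k : ℕ) : ℝ) * ξ * A * (2 * ω + 2) ^ (2 * k) ≤
          ((2 * k : ℕ) : ℝ) * ξ * A * (16 ^ k * (ω ^ k) ^ 2) :=
        mul_le_mul_of_nonneg_left hp2k (by positivity)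
      refine (add_le_add le_rfl b2).trans (le_of_eq ?_)
      push_cast
      ring
    have b3 : 2 * ω ^ k * e1 ≤ A * (2 * k * ξ * 16 ^ k) * (ω ^ k) ^ 2 := by
      rw [he1]
      calc 2 * ω ^ k * (k * ξ * A * (2 * ω + 2) ^ k) ≤ 2 * ω ^ k * (k * ξ * A * (16 ^ k * ω ^ k)) := by
            gcongr
            calc (2 * ω + 2) ^ k ≤ 4 ^ k * ω ^ k := hpk
              _ ≤ 16 ^ k * ω ^ k := mul_le_mul_of_nonneg_right h416 hωk0.le
        _ = _ := by ring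
    have b4 : (I.card : ℝ) * K0 * (A * ((k + 1) * 4 ^ k * L ^ k) * ω ^ k) ≤
        A * (K0 * ((k + 1) * 4 ^ k * L ^ k) / I.card) * (I.card * ω ^ k) ^ 2 := by
      have e : A * (K0 * ((k + 1) * 4 ^ k * L ^ k) / I.card) * (I.card * ω ^ k) ^ 2 =
          (I.card * K0 * (A * ((k + 1) * 4 ^ k * L ^ k) * ω ^ k)) * ω ^ k := by field_simp
      rw [e]
      have h0 : 0 ≤ (I.card : ℝ) * K0 * (A * ((k + 1) * 4 ^ k * L ^ k) * ω ^ k) := by positivity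
      nlinarith
    have b5 := mul_le_mul_of_nonneg_left (add_le_add b1 b3) (show (0 : ℝ) ≤ (I.card : ℝ) ^ 2 by positivity)
    refine (add_le_add b5 b4).trans (le_of_eq ?_)
    ring
  have h3 : (B * δ ^ 2) * (I.card * ω ^ k) ^ 2 ≤
      (A * (((1 + 2 * η) ^ (2 * k) - 1) + 4 * k * ξ * 16 ^ k +
        K0 * ((k + 1) * 4 ^ k * L ^ k) / I.card)) * (I.card * ω ^ k) ^ 2 := by
    calc (B * δ ^ 2) * (I.card * ω ^ k) ^ 2 = B * (δ * (I.card * ω ^ k)) ^ 2 := by ring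
      _ ≤ _ := h1.trans hbound
  exact le_of_mul_le_mul_right h3 (by positivity)

end Pool.Agent.N913.KT
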