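import Pool.Agent.N913.KT.T6

set_option autoImplicit false
set_option linter.unusedSectionVars false

/-! Concentration in a class, with parameters. -/

namespace Pool.Agent.N913.KT

open Finset Polynomial Filter
open Pool.Agent.N913.MT (th th_nonneg th_le tot_prod Wz Wz_le Wz_pos dvd_Wz evt_log_pow evt_log_ge)
open Pool.Agent.N913.MG (BVz AP1 kappa2)

theorem pol_size {N d : ℕ} (P : ℤ[X]) (hd : P.natDegree ≤ d) (B : ℝ) (hB : ∀ i, |(P.coeff i : ℝ)| ≤ B)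
    (c : Fin N → ℤ) (G : ℝ) (hG0 : 0 ≤ G) (hG : ∀ i, |(c i : ℝ)| ≤ G) (x : ℤ) (T : ℝ) (hT : 1 ≤ T)
    (hx : |(x : ℝ)| ≤ T) :
    |(((pol P c).eval x : ℤ) : ℝ)| ≤ ((d + 1 : ℕ) : ℝ) * B * T ^ d + (N : ℝ) * G * T ^ N := by
  have hB0 : 0 ≤ B := (abs_nonneg _).trans (hB 0)
  have hT0 : 0 ≤ T := by linarith
  have hxp : ∀ i n : ℕ, i ≤ n → |(x : ℝ)| ^ i ≤ T ^ n := fun i n h =>
    (pow_le_pow_left₀ (abs_nonneg _) hx i).trans (pow_le_pow_right₀ hT h)
  unfold pol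
  rw [eval_add, Int.cast_add]
  refine (abs_add_le _ _).trans (add_le_add ?_ ?_)
  · rw [eval_eq_sum_range' (n := d + 1) (by omega)]
    push_cast
    refine (abs_sum_le_sum_abs _ _).trans ?_
    have h1 : ∀ i ∈ range (d + 1), |(P.coeff i : ℝ) * (x : ℝ) ^ i| ≤ B * T ^ d := by
      intro i hi
      rw [mem_range] at hi
      rw [abs_mul, abs_pow]
      exact mul_le_mul (hB i) (hxp i d (by omega)) (by positivity) hB0
    refine (sum_le_card_nsmul _ _ _ h1).trans (le_of_eq ?_)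
    rw [card_range, nsmul_eq_mul]
    push_cast
    ring
  · rw [eval_finsetSum]
    push_cast
    refine (abs_sum_le_sum_abs _ _).trans ?_
    have h1 : ∀ i ∈ (univ : Finset (Fin N)), |((eval x (C (c i) * X ^ (i : ℕ)) : ℤ) : ℝ)| ≤ G * T ^ N := by
      intro i _
      rw [eval_mul, eval_C, eval_pow, eval_X]
      push_cast
      rw [abs_mul, abs_pow]
      exact mul_le_mul (hG i) (hxp i N i.2.le) (by positivity) hG0
    refine (sum_le_card_nsmul _ _ _ h1).trans (le_of_eq ?_)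
    rw [card_univ, Fintype.card_fin, nsmul_eq_mul]
    ring

theorem exists_eta (k : ℕ) (μ : ℝ) (hμ : 0 < μ) : ∃ η : ℝ, 0 < η ∧ η ≤ 1 / 2 ∧
    (1 + 2 * η) ^ (2 * k) - 1 ≤ μ := by
  have hc : Continuous (fun η : ℝ => (1 + 2 * η) ^ (2 * k) - 1) := by fun_prop
  have ht : Tendsto (fun η : ℝ => (1 + 2 * η) ^ (2 * k) - 1) (nhds 0) (nhds 0) :=
    hc.tendsto' 0 0 (by norm_num)
  obtain ⟨r, hr, h⟩ := Metric.tendsto_nhds_nhds.1 ht μ hμ
  refine ⟨min (r / 2) (1 / 2), by positivity, min_le_right _ _, ?_⟩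
  have h1 := h (x := min (r / 2) (1 / 2)) (by
    rw [dist_zero_right, Real.norm_of_nonneg (by positivity)]
    exact (min_le_left _ _).trans_lt (by linarith))
  rw [dist_zero_right, Real.norm_eq_abs] at h1
  exact (le_abs_self _).trans h1.le

theorem classQ (k d A E : ℕ) (hk : 1 ≤ k) (hE : 1 ≤ E) (κ δ lam δ' : ℝ) (hκ0 : 0 < κ) (hκ1 : κ ≤ 1)
    (hδ : 0 < δ) (hlam : 0 < lam) (hδ0' : 0 < δ') (hδ1' : δ' ≤ 1) (K0 : ℕ) :
    ∃ Kc : ℝ, 0 < Kc ∧ ∀ c0 : ℝ, ∃ H0 : ℕ, ∀ H : ℕ, H0 ≤ H →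
      (∃ η ξ : ℝ, Fk k E d A κ η ξ δ' c0 H) ∧
      ∀ P : ℤ[X], P.natDegree ≤ d → (∀ i, |(P.coeff i : ℝ)| ≤ H * Real.log H ^ A) →
      ∀ cs : Fin (2 * k) → ℤ, ∀ I : Finset ℕ, ∀ ps : ℕ → ℕ → ℤ,
        Kc * Real.log H ^ k ≤ I.card →
        (∀ n ∈ I, ∀ i < k, |ps n i| ≤ TK E H) →
        (∀ n ∈ I, ∀ i < k, ∀ j < k, i ≠ j → ps n i ≠ ps n j) →
        (∀ n ∈ I, ∀ i < k, ((pol P cs).eval (ps n i)).natAbs.Coprime (WK κ H)) →
        (∀ n ∈ I, (I.filter (fun n' => ∃ i < k, ∃ j < k, ps n i = ps n' j)).card ≤ K0) →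
        (((Bx H (WK κ H) cs).filter (fun c => δ * (I.card * ((WK κ H : ℝ) / Nat.totient (WK κ H)) ^ k) ≤
          |∑ n ∈ I, Fw P (2 * TK E H) (ps n) k c -
            I.card * ((WK κ H : ℝ) / Nat.totient (WK κ H)) ^ k|)).card : ℝ) ≤
          lam * (Bx H (WK κ H) cs).card := by
  have hk1 : (1 : ℝ) ≤ k := by exact_mod_cast hk
  obtain ⟨μ, hμ⟩ : ∃ μ, μ = lam * δ ^ 2 / 4 := ⟨_, rfl⟩
  have hμ0 : 0 < μ := by rw [hμ]; positivity
  obtain ⟨η, hη0, hη1, hη2⟩ := exists_eta k μ hμ0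
  obtain ⟨ξ, hξ⟩ : ∃ ξ, ξ = min 1 (μ / (4 * k * 16 ^ k)) := ⟨_, rfl⟩
  have hξ0 : 0 < ξ := by rw [hξ]; positivity
  have hξ1 : ξ ≤ 1 := by rw [hξ]; exact min_le_left _ _
  have hξ2 : 4 * k * ξ * 16 ^ k ≤ μ := by
    have h1 : ξ ≤ μ / (4 * k * 16 ^ k) := by rw [hξ]; exact min_le_right _ _
    rw [le_div_iff₀ (by positivity)] at h1
    linarith
  refine ⟨K0 * ((k + 1) * 8 ^ k) / μ + 1, by positivity, fun c0 => ?_⟩
  obtain ⟨X0, hX0⟩ := sw (DK k E + 2 * FK k E d A + 1)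
  obtain ⟨H1, hH1⟩ := fk_evt k E d A hk hE κ η ξ δ' c0 hκ0 hκ1 hη0 hξ0 hδ0' hδ1'
  refine ⟨max X0 H1, fun H hH => ?_⟩
  have hF := hH1 H ((le_max_right _ _).trans hH)
  refine ⟨⟨η, ξ, hF⟩, fun P hPd hP cs I ps hI hT hd hcop hK => ?_⟩
  have hHX : X0 ≤ YK k E d A H := ((le_max_left _ _).trans hH).trans hF.YH
  obtain ⟨M, hM0, hM1, hM2⟩ := hX0 (YK k E d A H) hHX
  have l4 := hF.l4
  have hl0 : 0 < Real.log H := by linarith
  have hW1 := hF.W1
  have hT1 := hF.T1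
  have h2T : 1 ≤ 2 * TK E H := by omega
  have hYq := hF.Yq
  have hle1 : 2 * TK E H ≤ WK κ H * (2 * TK E H) ^ (2 * k) := by
    calc 2 * TK E H = (2 * TK E H) ^ 1 := (pow_one _).symm
      _ ≤ (2 * TK E H) ^ (2 * k) := Nat.pow_le_pow_right h2T (by omega)
      _ ≤ _ := Nat.le_mul_of_pos_left _ hW1
  have hRY : 2 * TK E H ≤ (YK k E d A H).sqrt := (hle1.trans hYq).trans (Nat.sqrt_le_self _)
  have hlogYH : Real.log H ≤ Real.log (YK k E d A H) := by
    apply Real.log_le_log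
    · by_contra hcon
      have : (H : ℝ) = 0 := le_antisymm (not_lt.1 hcon) (Nat.cast_nonneg _)
      rw [this, Real.log_zero] at hl0
      exact lt_irrefl _ hl0
    · exact_mod_cast hF.YH
  have hIpos : (0 : ℝ) < I.card := by
    refine lt_of_lt_of_le ?_ hI
    positivity
  have hIne : I.Nonempty := card_pos.1 (by exact_mod_cast hIpos)
  have hmain := classT k P (2 * TK E H) (YK k E d A H) M (hM1 _ hRY) hM0 (WK κ H) (zK κ H) hW1 hF.z2
    (fun p hp hnd => by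
      by_contra hcon
      push Not at hcon
      exact hnd ((dvd_Wz (zK κ H) p hp).2 hcon)) H (SK k E κ H) (UK k E H) (TK E H) hF.U1 cs
    (fun p hp hpd => by
      have := (dvd_Wz (zK κ H) p hp).1 hpd
      have := hF.zT
      omega) le_rfl (by unfold SK; exact le_rfl) (by
      intro c hc x hx
      have h1 := pol_size P hPd (H * Real.log H ^ A) hP c (H + SK k E κ H) (by positivity) (fun i => by
        have := hc i
        have h2 : ((|c i| : ℤ) : ℝ) ≤ ((H + SK k E κ H : ℤ) : ℝ) := by exact_mod_cast this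
        push_cast at h2
        exact h2) x (TK E H) (by exact_mod_cast hT1) (by
        have h2 : ((|x| : ℤ) : ℝ) ≤ ((TK E H : ℤ) : ℝ) := by exact_mod_cast hx
        push_cast at h2
        exact h2)
      have h2 := hF.Ybd
      have h3 : ((|eval x (pol P c)| + (WK κ H * (2 * TK E H) ^ (2 * k) * UK k E H : ℕ) + 1 : ℤ) : ℝ) ≤
          ((YK k E d A H : ℤ) : ℝ) := by
        push_cast at h1 h2 ⊢
        linarith
      exact_mod_cast h3) hT1 η hη0.le hη1 hF.δη ξ hξ0.le hξ1 (by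
      intro δ₁ h1 h2
      have h3 := hM2 (WK κ H * δ₁) (Nat.mul_pos hW1 h1) ((Nat.mul_le_mul_left _ h2).trans hYq)
      refine le_trans ?_ hF.Mbd
      have : (0 : ℝ) ≤ UK k E H := Nat.cast_nonneg _
      gcongr) (by linarith) (by
      refine le_trans ?_ ((hF.strip).trans ?_)
      · apply mul_le_mul_of_nonneg_left (strip_card _ _ _ _)
        exact pow_nonneg (by linarith) _
      · exact mul_le_mul_of_nonneg_left (Bx_card H (WK κ H) hW1 hF.WH cs) hξ0.le)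
    I hIne ps hT hd hcop K0 hK δ hδ
  have hA0 : (0 : ℝ) ≤ (Bx H (WK κ H) cs).card := Nat.cast_nonneg _
  have h3 : K0 * ((k + 1) * 4 ^ k * Real.log (YK k E d A H) ^ k) / I.card ≤ μ := by
    rw [div_le_iff₀ hIpos]
    have h4 : Real.log (YK k E d A H) ^ k ≤ (2 * Real.log H) ^ k := by
      apply pow_le_pow_left₀ (by linarith)
      refine hF.Ylog.trans ?_
      apply mul_le_mul_of_nonneg_right _ hl0.le
      linarith
    have h5 : (K0 * ((k + 1) * 8 ^ k) / μ) * Real.log H ^ k ≤ I.card := by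
      refine le_trans ?_ hI
      apply mul_le_mul_of_nonneg_right _ (by positivity)
      linarith
    have h6 : K0 * ((k + 1) * 8 ^ k) * Real.log H ^ k ≤ μ * I.card := by
      have := mul_le_mul_of_nonneg_left h5 hμ0.le
      calc K0 * ((k + 1) * 8 ^ k) * Real.log H ^ k =
            μ * (K0 * ((k + 1) * 8 ^ k) / μ * Real.log H ^ k) := by field_simp
        _ ≤ _ := this
    refine le_trans ?_ h6
    calc K0 * ((k + 1) * 4 ^ k * Real.log (YK k E d A H) ^ k) ≤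
          K0 * ((k + 1) * 4 ^ k * (2 * Real.log H) ^ k) := by gcongr
      _ = K0 * ((k + 1) * 8 ^ k) * Real.log H ^ k := by
          rw [mul_pow, show (8 : ℝ) ^ k = 4 ^ k * 2 ^ k by rw [← mul_pow]; norm_num]
          ring
  have h7 := hmain.trans (mul_le_mul_of_nonneg_left (add_le_add (add_le_add hη2 hξ2) h3) hA0)
  have hδ2 : 0 < δ ^ 2 := by positivity
  have h8 : (Bx H (WK κ H) cs).card * (μ + μ + μ) ≤ (lam * (Bx H (WK κ H) cs).card) * δ ^ 2 := by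
    have e : (lam * ((Bx H (WK κ H) cs).card : ℝ)) * δ ^ 2 = (Bx H (WK κ H) cs).card * (4 * μ) := by
      rw [hμ]; ring
    rw [e]
    apply mul_le_mul_of_nonneg_left _ hA0
    linarith
  exact le_of_mul_le_mul_right (h7.trans h8) hδ2

end Pool.Agent.N913.KT
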