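import Pool.Agent.N913.KT.T9

set_option autoImplicit false
set_option linter.unusedSectionVars false

/-! From weights to counts, for one polynomial. -/

namespace Pool.Agent.N913.KT

open Finset Polynomial Filter
open Pool.Agent.N913.MT (th th_nonneg th_le tot_prod Wz Wz_le Wz_pos dvd_Wz cmod)

/-- the product of the `f ∘ τ_i` -/
noncomputable def FP {k : ℕ} (τ : Fin k → ℤ[X]) (f : ℤ[X]) : ℤ[X] := ∏ i, f.comp (τ i)

theorem FP_eval {k : ℕ} (τ : Fin k → ℤ[X]) (f : ℤ[X]) (n : ℤ) :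
    (FP τ f).eval n = ∏ i, f.eval ((τ i).eval n) := by
  unfold FP
  rw [eval_prod]
  apply prod_congr rfl
  intro i _
  rw [eval_comp]

theorem FP_cop {k : ℕ} (τ : Fin k → ℤ[X]) (f : ℤ[X]) (z n : ℕ) :
    ((FP τ f).eval (n : ℤ)).natAbs.Coprime (Wz z) ↔
      ∀ i < k, (f.eval (pz τ n i)).natAbs.Coprime (Wz z) := by
  rw [cop_Wz]
  constructor
  · intro h i hi
    rw [cop_Wz]
    intro p hp hd
    apply h p hp
    rw [FP_eval]
    unfold pz at hd
    rw [dif_pos hi] at hd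
    exact hd.trans (dvd_prod_of_mem _ (mem_univ (⟨i, hi⟩ : Fin k)))
  · intro h p hp hd
    rw [FP_eval, Prime.dvd_finsetProd_iff (Nat.prime_iff_prime_int.1 (mem_filter.1 hp).2)] at hd
    obtain ⟨i, _, hi⟩ := hd
    have h1 := (cop_Wz z _).1 (h i i.2) p hp
    apply h1
    unfold pz
    rw [dif_pos i.2]
    exact hi

theorem FP_per {k : ℕ} (τ : Fin k → ℤ[X]) (f : ℤ[X]) (z n : ℕ) :
    ((FP τ f).eval (n : ℤ)).natAbs.Coprime (Wz z) ↔
      ((FP τ f).eval ((n % Wz z : ℕ) : ℤ)).natAbs.Coprime (Wz z) := by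
  rw [cop_Wz, cop_Wz]
  apply forall₂_congr
  intro p hp
  apply not_congr
  have hpW : p ∣ Wz z := dvd_prod_of_mem (fun p => p) hp
  have h2 : (p : ℤ) ∣ (FP τ f).eval (n : ℤ) - (FP τ f).eval ((n % Wz z : ℕ) : ℤ) := by
    refine dvd_trans ?_ (sub_dvd_eval_sub _ _ _)
    push_cast
    exact (show (p : ℤ) ∣ (Wz z : ℤ) by exact_mod_cast hpW).trans Int.dvd_self_sub_emod
  constructor
  · intro h
    have := dvd_sub h h2
    simpa using this
  · intro h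
    have := dvd_add h2 h
    simpa using this

theorem last (k : ℕ) (Q S m ℓ ε δ δ' : ℝ) (hQ : 0 ≤ Q) (hm : 0 ≤ m) (hℓ : 0 < ℓ) (hδ' : 0 < δ')
    (hδ'1 : δ' < 1) (h1 : Q * ((1 - δ') * ℓ) ^ k ≤ S) (h2 : S ≤ Q * ((1 + δ') * ℓ) ^ k)
    (h3 : |S - m| ≤ 5 * δ * m) (e1 : 1 + 5 * δ ≤ (1 + ε) * (1 - δ') ^ k)
    (e2 : (1 - ε) * (1 + δ') ^ k ≤ 1 - 5 * δ) :
    |Q - m / ℓ ^ k| ≤ ε * (m / ℓ ^ k) := by
  rw [abs_le] at h3
  have hℓk : 0 < ℓ ^ k := by positivity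
  have hlo : 0 < (1 - δ') ^ k := pow_pos (by linarith) _
  have hhi : 0 < (1 + δ') ^ k := by positivity
  rw [mul_pow] at h1 h2
  have a1 : Q * ℓ ^ k * (1 - δ') ^ k ≤ ((1 + ε) * m) * (1 - δ') ^ k := by
    calc Q * ℓ ^ k * (1 - δ') ^ k = Q * ((1 - δ') ^ k * ℓ ^ k) := by ring
      _ ≤ (1 + 5 * δ) * m := by linarith [h3.2]
      _ ≤ ((1 + ε) * (1 - δ') ^ k) * m := mul_le_mul_of_nonneg_right e1 hm
      _ = _ := by ring
  have a2 : ((1 - ε) * m) * (1 + δ') ^ k ≤ Q * ℓ ^ k * (1 + δ') ^ k := by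
    calc ((1 - ε) * m) * (1 + δ') ^ k = ((1 - ε) * (1 + δ') ^ k) * m := by ring
      _ ≤ (1 - 5 * δ) * m := mul_le_mul_of_nonneg_right e2 hm
      _ ≤ Q * ((1 + δ') ^ k * ℓ ^ k) := by linarith [h3.1]
      _ = _ := by ring
  have a3 := le_of_mul_le_mul_right a1 hlo
  have a4 := le_of_mul_le_mul_right a2 hhi
  rw [abs_le]
  have e3 : Q - m / ℓ ^ k = (Q * ℓ ^ k - m) / ℓ ^ k := by field_simp
  have e4 : ε * (m / ℓ ^ k) = (ε * m) / ℓ ^ k := by ring
  rw [e3, e4, ← neg_div]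
  constructor
  · apply div_le_div_of_nonneg_right _ hℓk.le
    linarith
  · apply div_le_div_of_nonneg_right _ hℓk.le
    linarith

/-- the regular arguments with values coprime to the modulus -/
noncomputable def II {k N : ℕ} (P : ℤ[X]) (τ : Fin k → ℤ[X]) (c : Fin N → ℤ) (z J x : ℕ) : Finset ℕ :=
  ((Ioc J (J + x)).filter (fun n => ∀ i < k, ((pol P c).eval (pz τ n i)).natAbs.Coprime (Wz z))).filter
    (fun n => ∀ i < k, ∀ j < k, i ≠ j → pz τ n i ≠ pz τ n j)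

/-- the number of prime systems -/
noncomputable def QQ {k : ℕ} (τ : Fin k → ℤ[X]) (f : ℤ[X]) (J x : ℕ) : ℕ :=
  ((Ioc J (J + x)).filter (fun n => ∀ i < k, (f.eval (pz τ n i)).natAbs.Prime)).card

theorem conv {k N : ℕ} (P : ℤ[X]) (τ : Fin k → ℤ[X]) (c : Fin N → ℤ) (z T J x Y Z : ℕ)
    (ℓ δ δ' Kc Kx : ℝ) (hz : z ≤ 2 * T)
    (hpos : ∀ n ∈ Ioc J (J + x), ∀ i < k, |pz τ n i| ≤ T)
    (hbig : ∀ t : ℤ, |t| ≤ T → (Z : ℤ) < |(pol P c).eval t|)
    (hupp : ∀ t : ℤ, |t| ≤ T → |(pol P c).eval t| ≤ Y)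
    (hZR : 2 * T ≤ Z) (hlZ : (1 - δ') * ℓ ≤ Real.log ((Z : ℝ) + 1)) (hlY : Real.log Y ≤ (1 + δ') * ℓ)
    (hℓ : 1 ≤ ℓ) (hδ'0 : 0 < δ') (hδ'1 : δ' < 1) (hδ : 0 < δ) (hδ1 : δ ≤ 1 / 10) (hKc : 0 ≤ Kc) (K1 : ℕ)
    (hK1 : ∀ I : Finset ℕ, (I.filter (fun n => ¬ ∀ i < k, ∀ j < k, i ≠ j → pz τ n i ≠ pz τ n j)).card ≤ K1)
    (hx : Kx * ℓ ^ k * Wz z ≤ x) (hKx1 : 1 ≤ δ * Kx) (hKx2 : K1 * 2 ^ k ≤ δ * Kx) (hKx3 : 2 * Kc ≤ Kx)
    (hconc : Kc * ℓ ^ k ≤ (II P τ c z J x).card →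
      |∑ n ∈ II P τ c z J x, Fw P (2 * T) (pz τ n) k c -
        (II P τ c z J x).card * ((Wz z : ℝ) / Nat.totient (Wz z)) ^ k| ≤
        δ * ((II P τ c z J x).card * ((Wz z : ℝ) / Nat.totient (Wz z)) ^ k)) :
    ∃ S : ℝ, (QQ τ (pol P c) J x : ℝ) * ((1 - δ') * ℓ) ^ k ≤ S ∧
      S ≤ (QQ τ (pol P c) J x : ℝ) * ((1 + δ') * ℓ) ^ k ∧
      |S - x * SS k (FP τ (pol P c)) z| ≤ 5 * δ * (x * SS k (FP τ (pol P c)) z) := by
  classical
  obtain ⟨W, hW⟩ : ∃ W, W = Wz z := ⟨_, rfl⟩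
  have hW1 : 1 ≤ W := by rw [hW]; exact Wz_pos z
  have hW0 : (0 : ℝ) < W := by exact_mod_cast hW1
  obtain ⟨ω, hω⟩ : ∃ ω, ω = (W : ℝ) / Nat.totient W := ⟨_, rfl⟩
  have hω1 : 1 ≤ ω := by
    have h1 : (0 : ℝ) < Nat.totient W := by exact_mod_cast Nat.totient_pos.2 hW1
    rw [hω, le_div_iff₀ h1, one_mul]
    exact_mod_cast Nat.totient_le W
  have hℓ0 : 0 < ℓ := by linarith
  have hωk : 1 ≤ ω ^ k := one_le_pow₀ hω1
  -- values
  have hval : ∀ t : ℤ, |t| ≤ T → 2 * T < ((pol P c).eval t).natAbs ∧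
      (1 - δ') * ℓ ≤ Real.log (((pol P c).eval t).natAbs : ℝ) ∧
      Real.log (((pol P c).eval t).natAbs : ℝ) ≤ (1 + δ') * ℓ := by
    intro t ht
    have h1 := hbig t ht
    have h2 := hupp t ht
    rw [← Int.natCast_natAbs] at h1 h2
    have h3 : Z < ((pol P c).eval t).natAbs := by exact_mod_cast h1
    have h4 : ((pol P c).eval t).natAbs ≤ Y := by exact_mod_cast h2
    refine ⟨by omega, hlZ.trans ?_, le_trans ?_ hlY⟩
    · apply Real.log_le_log (by positivity)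
      exact_mod_cast h3
    · apply Real.log_le_log
      · exact_mod_cast (show 0 < ((pol P c).eval t).natAbs by omega)
      · exact_mod_cast h4
  obtain ⟨w, hw⟩ : ∃ w : ℕ → ℝ, w = fun n => Fw P (2 * T) (pz τ n) k c := ⟨_, rfl⟩
  have hw0 : ∀ n, 0 ≤ w n := fun n => by rw [hw]; exact Fw_nonneg _ _ _ _ _
  have hwlo : ∀ n ∈ Ioc J (J + x), (∀ i < k, ((pol P c).eval (pz τ n i)).natAbs.Prime) →
      ((1 - δ') * ℓ) ^ k ≤ w n := by
    intro n hn hp
    rw [hw]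
    unfold Fw
    have h1 := prod_le_prod (s := range k) (f := fun _ => (1 - δ') * ℓ)
      (g := fun j => th (2 * T) ((pol P c).eval (pz τ n j)).natAbs)
      (fun _ _ => mul_nonneg (by linarith) hℓ0.le) (fun j hj => by
        rw [mem_range] at hj
        obtain ⟨a1, a2, _⟩ := hval _ (hpos n hn j hj)
        unfold th
        rw [if_pos ⟨hp j hj, a1⟩]
        exact a2)
    rwa [prod_const, card_range] at h1
  have hwhi : ∀ n ∈ Ioc J (J + x), w n ≤ ((1 + δ') * ℓ) ^ k := by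
    intro n hn
    rw [hw]
    unfold Fw
    have h1 := prod_le_prod (s := range k)
      (f := fun j => th (2 * T) ((pol P c).eval (pz τ n j)).natAbs) (g := fun _ => (1 + δ') * ℓ)
      (fun _ _ => th_nonneg _ _) (fun j hj => by
        rw [mem_range] at hj
        obtain ⟨_, _, a3⟩ := hval _ (hpos n hn j hj)
        unfold th
        split_ifs
        · exact a3
        · positivity)
    rwa [prod_const, card_range] at h1
  have hwz : ∀ n, ¬ (∀ i < k, ((pol P c).eval (pz τ n i)).natAbs.Prime) → w n = 0 := by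
    intro n hn
    push Not at hn
    obtain ⟨i, hi, h⟩ := hn
    rw [hw]
    unfold Fw
    apply prod_eq_zero (mem_range.2 hi)
    unfold th
    rw [if_neg (fun h2 => h h2.1)]
  have hwc : ∀ n, ¬ (∀ i < k, ((pol P c).eval (pz τ n i)).natAbs.Coprime (Wz z)) → w n = 0 := by
    intro n hn
    push Not at hn
    obtain ⟨i, hi, h⟩ := hn
    rw [hw]
    unfold Fw
    apply prod_eq_zero (mem_range.2 hi)
    unfold th
    rw [if_neg]
    intro h2
    apply h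
    refine (h2.1.coprime_iff_not_dvd).2 ?_
    intro h3
    have := (dvd_Wz z _ h2.1).1 h3
    omega
  obtain ⟨S, hS⟩ : ∃ S, S = ∑ n ∈ Ioc J (J + x), w n := ⟨_, rfl⟩
  have hSQ : S = ∑ n ∈ (Ioc J (J + x)).filter (fun n => ∀ i < k, ((pol P c).eval (pz τ n i)).natAbs.Prime), w n := by
    rw [hS, ← sum_filter_add_sum_filter_not (Ioc J (J + x))
      (fun n => ∀ i < k, ((pol P c).eval (pz τ n i)).natAbs.Prime)]
    rw [sum_eq_zero (s := (Ioc J (J + x)).filter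
      (fun n => ¬ ∀ i < k, ((pol P c).eval (pz τ n i)).natAbs.Prime)) (fun n hn =>
        hwz n (mem_filter.1 hn).2), add_zero]
  refine ⟨S, ?_, ?_, ?_⟩
  · rw [hSQ, ← nsmul_eq_mul]
    unfold QQ
    exact card_nsmul_le_sum _ _ _ (fun n hn => hwlo n (mem_filter.1 hn).1 (mem_filter.1 hn).2)
  · rw [hSQ, ← nsmul_eq_mul]
    unfold QQ
    exact sum_le_card_nsmul _ _ _ (fun n hn => hwhi n (mem_filter.1 hn).1)
  -- decomposition
  obtain ⟨Gx, hGx⟩ : ∃ Gx, Gx = (Ioc J (J + x)).filter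
    (fun n => ∀ i < k, ((pol P c).eval (pz τ n i)).natAbs.Coprime (Wz z)) := ⟨_, rfl⟩
  obtain ⟨Ir, hIr⟩ : ∃ Ir, Ir = Gx.filter
    (fun n => ¬ ∀ i < k, ∀ j < k, i ≠ j → pz τ n i ≠ pz τ n j) := ⟨_, rfl⟩
  obtain ⟨I, hI⟩ : ∃ I, I = II P τ c z J x := ⟨_, rfl⟩
  have hIe : I = Gx.filter (fun n => ∀ i < k, ∀ j < k, i ≠ j → pz τ n i ≠ pz τ n j) := by
    rw [hI, hGx]
    unfold II
    rfl
  have hS1 : S = ∑ n ∈ I, w n + ∑ n ∈ Ir, w n := by
    rw [hIe, hIr, sum_filter_add_sum_filter_not, hS, hGx]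
    rw [← sum_filter_add_sum_filter_not (Ioc J (J + x))
      (fun n => ∀ i < k, ((pol P c).eval (pz τ n i)).natAbs.Coprime (Wz z))]
    rw [sum_eq_zero (s := (Ioc J (J + x)).filter
      (fun n => ¬ ∀ i < k, ((pol P c).eval (pz τ n i)).natAbs.Coprime (Wz z))) (fun n hn =>
        hwc n (mem_filter.1 hn).2), add_zero]
  have hcard : I.card + Ir.card = Gx.card := by
    rw [hIe, hIr]
    exact card_filter_add_card_filter_not _
  have hIrK : (Ir.card : ℝ) ≤ K1 := by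
    rw [hIr]
    exact_mod_cast hK1 Gx
  have hIrw : ∑ n ∈ Ir, w n ≤ K1 * (2 * ℓ) ^ k := by
    have h1 : ∀ n ∈ Ir, w n ≤ (2 * ℓ) ^ k := by
      intro n hn
      rw [hIr, mem_filter, hGx, mem_filter] at hn
      refine (hwhi n hn.1.1).trans ?_
      apply pow_le_pow_left₀ (by positivity)
      exact mul_le_mul_of_nonneg_right (by linarith) hℓ0.le
    refine (sum_le_card_nsmul _ _ _ h1).trans ?_
    rw [nsmul_eq_mul]
    exact mul_le_mul_of_nonneg_right hIrK (by positivity)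
  have hIrw0 : 0 ≤ ∑ n ∈ Ir, w n := sum_nonneg fun n _ => hw0 n
  -- the number of coprime arguments
  obtain ⟨g, hg⟩ : ∃ g, g = ((range W).filter (fun i : ℕ =>
    ((FP τ (pol P c)).eval (i : ℤ)).natAbs.Coprime W)).card := ⟨_, rfl⟩
  have hGxe : Gx = (Ioc J (J + x)).filter (fun n : ℕ => ((FP τ (pol P c)).eval (n : ℤ)).natAbs.Coprime W) := by
    rw [hGx, hW]
    apply filter_congr
    intro n _
    exact (FP_cop τ (pol P c) z n).symm
  have hwin := window J x W hW1 (fun n : ℕ => ((FP τ (pol P c)).eval (n : ℤ)).natAbs.Coprime W)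
    (fun n => by rw [hW]; exact FP_per τ (pol P c) z n)
  rw [← hGxe, ← hg] at hwin
  have hSS : SS k (FP τ (pol P c)) z = (g : ℝ) / W * ω ^ k := by
    rw [← good_card, hg, hω, hW]
  obtain ⟨u, hu⟩ : ∃ u : ℝ, u = x * g / W := ⟨_, rfl⟩
  have hm : (x : ℝ) * SS k (FP τ (pol P c)) z = u * ω ^ k := by rw [hSS, hu]; ring
  rw [hm]
  rw [← hu] at hwin
  rcases Nat.eq_zero_or_pos g with hg0 | hg0
  · -- no admissible class
    have hu0 : u = 0 := by rw [hu, hg0]; simp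
    rw [hg0, hu0, sub_zero, Nat.cast_zero, abs_nonpos_iff] at hwin
    have h1 : Gx.card = 0 := by exact_mod_cast hwin
    have h2 : I = ∅ := card_eq_zero.1 (by omega)
    have h3 : Ir = ∅ := card_eq_zero.1 (by omega)
    rw [hS1, h2, h3, hu0]
    simp
  · have hg1 : (1 : ℝ) ≤ g := by exact_mod_cast hg0
    have hKx0 : 0 < Kx := by
      by_contra hcon
      push Not at hcon
      have : δ * Kx ≤ 0 := mul_nonpos_of_nonneg_of_nonpos hδ.le hcon
      linarith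
    have hℓk : 1 ≤ ℓ ^ k := one_le_pow₀ hℓ
    have hu1 : Kx * ℓ ^ k ≤ u := by
      rw [hu, le_div_iff₀ hW0]
      calc Kx * ℓ ^ k * W ≤ x := by rw [hW]; exact hx
        _ = x * 1 := (mul_one _).symm
        _ ≤ x * g := mul_le_mul_of_nonneg_left hg1 (Nat.cast_nonneg _)
    have hgu : (g : ℝ) ≤ δ * u := by
      rw [hu]
      have h1 : (W : ℝ) ≤ δ * x := by
        calc (W : ℝ) = 1 * 1 * W := by ring
          _ ≤ (δ * Kx) * ℓ ^ k * W := by gcongr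
          _ = δ * (Kx * ℓ ^ k * W) := by ring
          _ ≤ δ * x := by rw [hW]; exact mul_le_mul_of_nonneg_left hx hδ.le
      have h2 := mul_le_mul_of_nonneg_right h1 (show (0 : ℝ) ≤ g / W by positivity)
      calc (g : ℝ) = W * (g / W) := by field_simp
        _ ≤ δ * x * (g / W) := h2
        _ = _ := by ring
    have hKu : (K1 : ℝ) * (2 * ℓ) ^ k ≤ δ * u := by
      calc (K1 : ℝ) * (2 * ℓ) ^ k = (K1 * 2 ^ k) * ℓ ^ k := by rw [mul_pow]; ring
        _ ≤ (δ * Kx) * ℓ ^ k := mul_le_mul_of_nonneg_right hKx2 (by positivity)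
        _ = δ * (Kx * ℓ ^ k) := by ring
        _ ≤ δ * u := mul_le_mul_of_nonneg_left hu1 hδ.le
    have hKu2 : (K1 : ℝ) ≤ δ * u := by
      refine le_trans ?_ hKu
      have h1 : 1 ≤ (2 * ℓ) ^ k := one_le_pow₀ (by linarith)
      have := mul_le_mul_of_nonneg_left h1 (Nat.cast_nonneg K1 : (0 : ℝ) ≤ K1)
      linarith
    have hu0 : 0 < u := lt_of_lt_of_le (by positivity) hu1
    have hcardR : (I.card : ℝ) + Ir.card = Gx.card := by exact_mod_cast hcard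
    have hIr0 : (0 : ℝ) ≤ Ir.card := Nat.cast_nonneg _
    rw [abs_le] at hwin
    have hI1 : |(I.card : ℝ) - u| ≤ 2 * δ * u := by
      rw [abs_le]
      constructor <;> linarith [hwin.1, hwin.2]
    have hI2 := abs_le.1 hI1
    have hδu : δ * u ≤ 1 / 10 * u := mul_le_mul_of_nonneg_right hδ1 hu0.le
    have hc := hconc (by
      rw [← hI]
      have h1 : Kc * ℓ ^ k ≤ Kx * ℓ ^ k / 2 := by
        have := mul_le_mul_of_nonneg_right hKx3 (show 0 ≤ ℓ ^ k by positivity)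
        linarith
      linarith [hI2.1])
    rw [← hI, ← hW, ← hω] at hc
    have hc' : |∑ n ∈ I, w n - I.card * ω ^ k| ≤ δ * (I.card * ω ^ k) := by rw [hw]; exact hc
    have hp0 : 0 < ω ^ k := by linarith
    have b1 : |(I.card : ℝ) * ω ^ k - u * ω ^ k| ≤ 2 * δ * (u * ω ^ k) := by
      rw [← sub_mul, abs_mul, abs_of_pos hp0]
      have := mul_le_mul_of_nonneg_right hI1 hp0.le
      linarith
    have b2 : δ * ((I.card : ℝ) * ω ^ k) ≤ 2 * δ * (u * ω ^ k) := by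
      have h1 : (I.card : ℝ) ≤ 2 * u := by linarith [hI2.2]
      have h2 := mul_le_mul_of_nonneg_right h1 hp0.le
      have h3 := mul_le_mul_of_nonneg_left h2 hδ.le
      linarith
    have b3 : ∑ n ∈ Ir, w n ≤ δ * (u * ω ^ k) := by
      refine hIrw.trans (hKu.trans ?_)
      have h1 : u ≤ u * ω ^ k := by
        have := mul_le_mul_of_nonneg_left hωk hu0.le
        linarith
      exact mul_le_mul_of_nonneg_left h1 hδ.le
    rw [abs_le] at hc' b1 ⊢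
    rw [hS1]
    constructor <;> linarith [hc'.1, hc'.2, b1.1, b1.2]

end Pool.Agent.N913.KT
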