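import Pool.Agent.N913.KT.T7
import Pool.Agent.N913.KT.T10

set_option autoImplicit false
set_option linter.unusedSectionVars false

/-! The main theorem. -/

namespace Pool.Agent.N913.KT

open Finset Polynomial Filter
open Pool.Agent.N913.MT (th th_nonneg th_le tot_prod Wz Wz_le Wz_pos dvd_Wz evt_log_pow evt_log_ge)

theorem exists_delta (k : ℕ) (ε : ℝ) (hε : 0 < ε) : ∃ δ' : ℝ, 0 < δ' ∧ δ' < 1 ∧
    1 + ε / 4 ≤ (1 + ε) * (1 - δ') ^ k ∧ (1 - ε) * (1 + δ') ^ k ≤ 1 - ε / 4 := by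
  have hc1 : Continuous (fun y : ℝ => (1 + ε) * (1 - y) ^ k) := by fun_prop
  have hc2 : Continuous (fun y : ℝ => (1 - ε) * (1 + y) ^ k) := by fun_prop
  have t1 : Tendsto (fun y : ℝ => (1 + ε) * (1 - y) ^ k) (nhds 0) (nhds (1 + ε)) :=
    hc1.tendsto' 0 _ (by simp)
  have t2 : Tendsto (fun y : ℝ => (1 - ε) * (1 + y) ^ k) (nhds 0) (nhds (1 - ε)) :=
    hc2.tendsto' 0 _ (by simp)
  obtain ⟨r1, hr1, h1⟩ := Metric.tendsto_nhds_nhds.1 t1 (ε / 2) (by positivity)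
  obtain ⟨r2, hr2, h2⟩ := Metric.tendsto_nhds_nhds.1 t2 (ε / 2) (by positivity)
  obtain ⟨y, hy⟩ : ∃ y, y = min (min (r1 / 2) (r2 / 2)) (1 / 2) := ⟨_, rfl⟩
  have hy0 : 0 < y := by rw [hy]; positivity
  have hy1 : y ≤ r1 / 2 := by rw [hy]; exact (min_le_left _ _).trans (min_le_left _ _)
  have hy2 : y ≤ r2 / 2 := by rw [hy]; exact (min_le_left _ _).trans (min_le_right _ _)
  have hy3 : y ≤ 1 / 2 := by rw [hy]; exact min_le_right _ _
  have e1 := h1 (x := y) (by rw [dist_zero_right, Real.norm_of_nonneg hy0.le]; linarith)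
  have e2 := h2 (x := y) (by rw [dist_zero_right, Real.norm_of_nonneg hy0.le]; linarith)
  rw [Real.dist_eq, abs_lt] at e1 e2
  exact ⟨y, hy0, by linarith, by linarith [e1.1], by linarith [e2.2]⟩

theorem main (k : ℕ) (hk : 1 ≤ k) (τ : Fin k → ℤ[X]) (hτ : ∀ i, 1 ≤ (τ i).natDegree)
    (hinj : Function.Injective τ) (d A C : ℕ) (ε : ℝ) (hε0 : 0 < ε) (hε1 : ε ≤ 1) :
    ∃ H0 : ℕ, ∀ H : ℕ, H0 ≤ H → ∀ P : ℤ[X], P.natDegree ≤ d →
      (∀ i, |(P.coeff i : ℝ)| ≤ H * Real.log H ^ A) →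
      ∀ J x : ℕ, Real.log H ^ ((k : ℝ) + ε) ≤ x → ((J + x : ℕ) : ℝ) ≤ Real.log H ^ C →
      (((box (2 * k) H).filter (fun c =>
        ε * (x * SS k (FP τ (pol P c)) (zK (ε / 4) H) / Real.log H ^ k) <
          |(QQ τ (pol P c) J x : ℝ) -
            x * SS k (FP τ (pol P c)) (zK (ε / 4) H) / Real.log H ^ k|)).card : ℝ) ≤
        ε * H ^ (2 * k) := by
  classical
  obtain ⟨δ', hδ'0, hδ'1, he1, he2⟩ := exists_delta k ε hε0
  obtain ⟨δ, hδ⟩ : ∃ δ, δ = ε / 20 := ⟨_, rfl⟩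
  have hδ0 : 0 < δ := by rw [hδ]; positivity
  have hδ1 : δ ≤ 1 / 10 := by rw [hδ]; linarith
  obtain ⟨Dg, hDg⟩ : ∃ Dg, Dg = ∑ j, (τ j).natDegree := ⟨_, rfl⟩
  obtain ⟨E, hE⟩ : ∃ E, E = C * Dg + 1 := ⟨_, rfl⟩
  obtain ⟨K1, hK1⟩ : ∃ K1, K1 = k * k * Dg := ⟨_, rfl⟩
  obtain ⟨B, hB0, hB⟩ := pz_le τ
  rw [← hDg] at hB
  obtain ⟨lam, hlam⟩ : ∃ lam : ℝ, lam = ε / (2 * 9 ^ k) := ⟨_, rfl⟩
  have hlam0 : 0 < lam := by rw [hlam]; positivity
  obtain ⟨Kc, hKc0, hKc⟩ := classQ k d A E hk (by omega) (ε / 4) δ lam δ' (by positivity)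
    (by linarith) hδ0 hlam0 hδ'0 hδ'1.le K1
  obtain ⟨Kx, hKx⟩ : ∃ Kx : ℝ, Kx = (K1 * 2 ^ k + 1) / δ + 2 * Kc := ⟨_, rfl⟩
  have hKx0 : 0 < Kx := by rw [hKx]; positivity
  have hδKx : K1 * 2 ^ k + 1 ≤ δ * Kx := by
    rw [hKx, mul_add, mul_div_cancel₀ _ hδ0.ne']
    have : 0 ≤ δ * (2 * Kc) := by positivity
    linarith
  obtain ⟨D', hD'⟩ : ∃ D', D' = 2 * E + 3 := ⟨_, rfl⟩
  obtain ⟨H1, hH1⟩ := hKc (B + Kx ^ (2 / ε) + (2 * D' / δ') ^ 2 + 2 * 9 ^ k / ε + 1)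
  obtain ⟨H2, hH2⟩ := eventually_atTop.1 ((evt_log_pow (1 / 8) (by norm_num) 2 (4 * E + 10)).and
    (eventually_ge_atTop 3))
  refine ⟨max H1 H2, fun H hH P hPd hP J x hx1 hx2 => ?_⟩
  obtain ⟨⟨η, ξ, hF⟩, hcl⟩ := hH1 H ((le_max_left _ _).trans hH)
  obtain ⟨g1, g2⟩ := hH2 H ((le_max_right _ _).trans hH)
  have hcl := hcl P hPd hP
  have hH3 : (3 : ℝ) ≤ H := by exact_mod_cast g2
  have hH0 : (0 : ℝ) < H := by linarith
  obtain ⟨ℓ, hℓ⟩ : ∃ ℓ, ℓ = Real.log H := ⟨_, rfl⟩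
  have l4 := hF.l4
  have lc := hF.lc
  have LL := hF.L_ge
  have hTl := hF.T_le
  have hYlog := hF.Ylog
  have hWr := hF.Wr
  rw [← hℓ] at g1 l4 lc LL hTl hYlog hWr hx1 hx2
  have hℓ0 : 0 < ℓ := by linarith
  have q1 : 0 ≤ Kx ^ (2 / ε) := Real.rpow_nonneg hKx0.le _
  have q2 : (0 : ℝ) ≤ (2 * D' / δ') ^ 2 := by positivity
  have q3 : (0 : ℝ) ≤ 2 * 9 ^ k / ε := by positivity
  have lB : B ≤ ℓ := by linarith
  have lK : Kx ^ (2 / ε) ≤ ℓ := by linarith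
  have lD : (2 * D' / δ') ^ 2 ≤ ℓ := by linarith
  have l9 : 2 * 9 ^ k / ε ≤ ℓ := by linarith
  have hp1 : ∀ n : ℕ, 1 ≤ ℓ ^ n := fun n => one_le_pow₀ (by linarith)
  have hpm : ∀ m n : ℕ, m ≤ n → ℓ ^ m ≤ ℓ ^ n := fun m n h => pow_le_pow_right₀ (by linarith) h
  have hHp : 2 * ℓ ^ (4 * E + 10) ≤ H := by
    refine g1.trans ?_
    calc (H : ℝ) ^ (1 / 8 : ℝ) ≤ (H : ℝ) ^ (1 : ℝ) :=
          Real.rpow_le_rpow_of_exponent_le (by linarith) (by norm_num)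
      _ = H := Real.rpow_one _
  have hT1 := hF.T1
  have hT1r : (1 : ℝ) ≤ TK E H := by exact_mod_cast hT1
  -- Z
  obtain ⟨Z, hZ⟩ : ∃ Z, Z = ⌊(H : ℝ) / ℓ ^ D'⌋₊ := ⟨_, rfl⟩
  have hDpos : 0 < ℓ ^ D' := by positivity
  have hZ1 : (Z : ℝ) ≤ H / ℓ ^ D' := by rw [hZ]; exact Nat.floor_le (by positivity)
  have hZ2 : (H : ℝ) / ℓ ^ D' < Z + 1 := by rw [hZ]; exact Nat.lt_floor_add_one _
  have hZR : 2 * TK E H ≤ Z := by
    rw [hZ]
    apply Nat.le_floor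
    rw [le_div_iff₀ hDpos]
    push_cast
    calc 2 * (TK E H : ℝ) * ℓ ^ D' ≤ ℓ ^ (2 * E + 1) * ℓ ^ D' :=
          mul_le_mul_of_nonneg_right (by linarith) hDpos.le
      _ = ℓ ^ (2 * E + 1 + D') := (pow_add ℓ (2 * E + 1) D').symm
      _ ≤ ℓ ^ (4 * E + 10) := hpm _ _ (by omega)
      _ ≤ H := by linarith [hp1 (4 * E + 10)]
  have hsqrt : Real.log ℓ ≤ 2 * Real.sqrt ℓ := by
    have h1 : Real.log (Real.sqrt ℓ) = Real.log ℓ / 2 := Real.log_sqrt hℓ0.le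
    have h2 := Real.log_le_sub_one_of_pos (Real.sqrt_pos.2 hℓ0)
    linarith
  have hlZ : (1 - δ') * ℓ ≤ Real.log ((Z : ℝ) + 1) := by
    have h1 : Real.log ((H : ℝ) / ℓ ^ D') ≤ Real.log ((Z : ℝ) + 1) :=
      Real.log_le_log (by positivity) hZ2.le
    rw [Real.log_div hH0.ne' (by positivity), Real.log_pow, ← hℓ] at h1
    have h2 : 2 * (D' : ℝ) / δ' ≤ Real.sqrt ℓ := Real.le_sqrt_of_sq_le lD
    have h3 : 2 * (D' : ℝ) ≤ δ' * Real.sqrt ℓ := by
      rw [div_le_iff₀ hδ'0] at h2; linarith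
    have h4 : (D' : ℝ) * Real.log ℓ ≤ D' * (2 * Real.sqrt ℓ) :=
      mul_le_mul_of_nonneg_left hsqrt (Nat.cast_nonneg _)
    have h5 : (D' : ℝ) * (2 * Real.sqrt ℓ) ≤ δ' * Real.sqrt ℓ * Real.sqrt ℓ := by
      have := mul_le_mul_of_nonneg_right h3 (Real.sqrt_nonneg ℓ)
      linarith
    have h6 : δ' * Real.sqrt ℓ * Real.sqrt ℓ = δ' * ℓ := by
      rw [mul_assoc, Real.mul_self_sqrt hℓ0.le]
    linarith
  -- positions
  have hpos : ∀ n ∈ Ioc J (J + x), ∀ i < k, |pz τ n i| ≤ TK E H := by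
    intro n hn i _
    rw [mem_Ioc] at hn
    have h1 : (n : ℝ) ≤ ℓ ^ C := by
      refine le_trans ?_ hx2
      exact_mod_cast hn.2
    have h2 := hB n (ℓ ^ C) (hp1 C) h1 i
    have h3 : |(pz τ n i : ℝ)| ≤ TK E H := by
      refine h2.trans ?_
      unfold TK
      push_cast
      calc B * (ℓ ^ C) ^ Dg ≤ ℓ * (ℓ ^ C) ^ Dg := mul_le_mul_of_nonneg_right lB (by positivity)
        _ = ℓ ^ E := by rw [← pow_mul, hE, pow_succ]; ring
        _ ≤ (LK H : ℝ) ^ E := pow_le_pow_left₀ hℓ0.le LL _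
    have h4 : ((|pz τ n i| : ℤ) : ℝ) ≤ ((TK E H : ℤ) : ℝ) := by push_cast; exact h3
    exact_mod_cast h4
  -- size
  have hupp : ∀ c ∈ box (2 * k) H, ∀ t : ℤ, |t| ≤ TK E H → |(pol P c).eval t| ≤ YK k E d A H := by
    intro c hc t ht
    unfold box at hc
    rw [Fintype.mem_piFinset] at hc
    have h1 := pol_size P hPd (H * Real.log H ^ A) hP c (H + SK k E (ε / 4) H) (by positivity) (fun i => by
      have h2 := abs_le.2 (mem_Icc.1 (hc i))
      have h3 : ((|c i| : ℤ) : ℝ) ≤ ((H : ℤ) : ℝ) := by exact_mod_cast h2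
      push_cast at h3
      have : (0 : ℝ) ≤ SK k E (ε / 4) H := Nat.cast_nonneg _
      linarith) t (TK E H) hT1r (by
      have h2 : ((|t| : ℤ) : ℝ) ≤ ((TK E H : ℤ) : ℝ) := by exact_mod_cast ht
      push_cast at h2
      exact h2)
    have h2 := hF.Ybd
    have h4 : (0 : ℝ) ≤ ((WK (ε / 4) H * (2 * TK E H) ^ (2 * k) * UK k E H : ℕ) : ℝ) := Nat.cast_nonneg _
    have h3 : ((|(pol P c).eval t| : ℤ) : ℝ) ≤ ((YK k E d A H : ℤ) : ℝ) := by
      push_cast at h1 h2 h4 ⊢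
      linarith
    exact_mod_cast h3
  -- windows
  have hxW : Kx * ℓ ^ k * (Wz (zK (ε / 4) H) : ℕ) ≤ x := by
    have h1 : Kx ≤ ℓ ^ (ε / 2) := by
      have h2 : (Kx ^ (2 / ε)) ^ (ε / 2) = Kx := by
        rw [← Real.rpow_mul hKx0.le]
        have : 2 / ε * (ε / 2) = 1 := by field_simp
        rw [this, Real.rpow_one]
      calc Kx = (Kx ^ (2 / ε)) ^ (ε / 2) := h2.symm
        _ ≤ ℓ ^ (ε / 2) := Real.rpow_le_rpow q1 lK (by positivity)
    have h3 : ((Wz (zK (ε / 4) H) : ℕ) : ℝ) ≤ ℓ ^ (ε / 2) := by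
      have e : 2 * (ε / 4) = ε / 2 := by ring
      rw [e] at hWr
      exact hWr
    refine le_trans ?_ hx1
    calc Kx * ℓ ^ k * (Wz (zK (ε / 4) H) : ℕ) ≤ ℓ ^ (ε / 2) * ℓ ^ k * ℓ ^ (ε / 2) := by gcongr
      _ = ℓ ^ ((k : ℝ) + ε) := by
          rw [← Real.rpow_natCast ℓ k, ← Real.rpow_add hℓ0, ← Real.rpow_add hℓ0]
          congr 1
          ring
  -- good vectors
  have hgood : ∀ c ∈ box (2 * k) H, (¬ ∃ t : ℤ, |t| ≤ TK E H ∧ |(pol P c).eval t| ≤ Z) →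
      (Kc * ℓ ^ k ≤ (II P τ c (zK (ε / 4) H) J x).card →
      |∑ n ∈ II P τ c (zK (ε / 4) H) J x, Fw P (2 * TK E H) (pz τ n) k c -
        (II P τ c (zK (ε / 4) H) J x).card *
          ((Wz (zK (ε / 4) H) : ℝ) / Nat.totient (Wz (zK (ε / 4) H))) ^ k| ≤
        δ * ((II P τ c (zK (ε / 4) H) J x).card *
          ((Wz (zK (ε / 4) H) : ℝ) / Nat.totient (Wz (zK (ε / 4) H))) ^ k)) →
      |(QQ τ (pol P c) J x : ℝ) - x * SS k (FP τ (pol P c)) (zK (ε / 4) H) / ℓ ^ k| ≤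
        ε * (x * SS k (FP τ (pol P c)) (zK (ε / 4) H) / ℓ ^ k) := by
    intro c hc hsm hconc
    push Not at hsm
    obtain ⟨S, s1, s2, s3⟩ := conv P τ c (zK (ε / 4) H) (TK E H) J x (YK k E d A H) Z ℓ δ δ' Kc Kx
      hF.zT hpos hsm (hupp c hc) hZR hlZ hYlog (by linarith) hδ'0 hδ'1 hδ0 hδ1 hKc0.le K1
      (fun I => by rw [hK1, hDg]; exact irreg τ hinj I) hxW (by
        have : (0 : ℝ) ≤ K1 * 2 ^ k := by positivity
        linarith) (by linarith) (by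
        rw [hKx]
        have : 0 ≤ (K1 * 2 ^ k + 1) / δ := by positivity
        linarith) hconc
    have hSS0 : 0 ≤ (x : ℝ) * SS k (FP τ (pol P c)) (zK (ε / 4) H) := by
      rw [← good_card]
      positivity
    exact last k _ S _ ℓ ε δ δ' (Nat.cast_nonneg _) hSS0 hℓ0 hδ'0 hδ'1 s1 s2 s3
      (by rw [hδ]; linarith) (by rw [hδ]; linarith)
  -- the exceptional set
  rw [← hℓ]
  obtain ⟨Bd, hBd⟩ : ∃ Bd, Bd = (box (2 * k) H).filter (fun c =>
        ε * (x * SS k (FP τ (pol P c)) (zK (ε / 4) H) / ℓ ^ k) <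
          |(QQ τ (pol P c) J x : ℝ) - x * SS k (FP τ (pol P c)) (zK (ε / 4) H) / ℓ ^ k|) := ⟨_, rfl⟩
  rw [← hBd]
  obtain ⟨E0, hE0⟩ : ∃ E0, E0 = (box (2 * k) H).filter
    (fun c => ∃ t : ℤ, |t| ≤ TK E H ∧ |(pol P c).eval t| ≤ Z) := ⟨_, rfl⟩
  have hsplit : Bd ⊆ E0 ∪ Bd.filter (fun c => c ∉ E0) := by
    intro c hc
    rw [mem_union]
    by_cases h : c ∈ E0
    · exact Or.inl h
    · exact Or.inr (mem_filter.2 ⟨hc, h⟩)
  have hcard0 : (Bd.card : ℝ) ≤ E0.card + (Bd.filter (fun c => c ∉ E0)).card := by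
    exact_mod_cast (card_le_card hsplit).trans (card_union_le _ _)
  have hE0card : (E0.card : ℝ) ≤ ε / 2 * H ^ (2 * k) := by
    have h1 : E0.card ≤ (2 * TK E H + 1) * ((2 * Z + 1) * (2 * H + 1) ^ (2 * k - 1)) := by
      rw [hE0]
      convert small_all (N := 2 * k) (by omega) P H Z (TK E H) using 2
    have h2 : (E0.card : ℝ) ≤ (2 * TK E H + 1) * ((2 * Z + 1) * (2 * H + 1) ^ (2 * k - 1)) := by
      exact_mod_cast h1
    refine h2.trans ?_
    have h3 : (2 * (Z : ℝ) + 1) ≤ 3 * (H / ℓ ^ D') := by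
      have : 1 ≤ (H : ℝ) / ℓ ^ D' := by
        rw [le_div_iff₀ hDpos, one_mul]
        have := hpm D' (4 * E + 10) (by omega)
        linarith [hp1 (4 * E + 10)]
      linarith
    have h4 : ((2 : ℝ) * H + 1) ^ (2 * k - 1) ≤ (3 * H) ^ (2 * k - 1) :=
      pow_le_pow_left₀ (by positivity) (by linarith) _
    calc (2 * (TK E H : ℝ) + 1) * ((2 * Z + 1) * (2 * H + 1) ^ (2 * k - 1)) ≤
          ℓ ^ (2 * E + 1) * (3 * (H / ℓ ^ D') * (3 * H) ^ (2 * k - 1)) := by gcongr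
      _ = ((3 * H) ^ (2 * k - 1) * (3 * H)) * (ℓ ^ (2 * E + 1) / ℓ ^ D') := by ring
      _ = (9 ^ k * H ^ (2 * k)) * (1 / ℓ ^ 2) := by
          rw [← pow_succ, show 2 * k - 1 + 1 = 2 * k by omega, mul_pow, pow_mul 3 2 k]
          have e : ℓ ^ D' = ℓ ^ (2 * E + 1) * ℓ ^ 2 := by
            rw [hD', ← pow_add]
          have e2 : ℓ ^ (2 * E + 1) / ℓ ^ D' = 1 / ℓ ^ 2 := by rw [e]; field_simp
          rw [e2]
          norm_num
      _ ≤ ε / 2 * H ^ (2 * k) := by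
          rw [mul_one_div, div_le_iff₀ (by positivity)]
          rw [div_le_iff₀ hε0] at l9
          have h5 : ℓ ≤ ℓ ^ 2 := by
            calc ℓ = ℓ ^ 1 := (pow_one ℓ).symm
              _ ≤ _ := hpm 1 2 (by norm_num)
          have h6 : 9 ^ k ≤ ε / 2 * ℓ ^ 2 := by
            have := mul_le_mul_of_nonneg_left h5 hε0.le
            linarith
          have h7 := mul_le_mul_of_nonneg_right h6 (show (0 : ℝ) ≤ H ^ (2 * k) by positivity)
          linarith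
  have hpart := part H (WK (ε / 4) H) hF.W1 (Bd.filter (fun c => c ∉ E0)) (by
    intro c hc
    rw [mem_filter, hBd, mem_filter] at hc
    exact hc.1.1) lam (by
    intro cs
    obtain ⟨I, hI⟩ : ∃ I, I = II P τ cs (zK (ε / 4) H) J x := ⟨_, rfl⟩
    have hA0 : (0 : ℝ) ≤ lam * (Bx H (WK (ε / 4) H) cs).card := by positivity
    have hmem : ∀ c ∈ (Bd.filter (fun c => c ∉ E0)).filter (fun c => rs (WK (ε / 4) H) c = cs),
        c ∈ box (2 * k) H ∧ (¬ ∃ t : ℤ, |t| ≤ TK E H ∧ |(pol P c).eval t| ≤ Z) ∧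
        c ∈ Bx H (WK (ε / 4) H) cs ∧ II P τ c (zK (ε / 4) H) J x = I ∧
        ε * (x * SS k (FP τ (pol P c)) (zK (ε / 4) H) / ℓ ^ k) <
          |(QQ τ (pol P c) J x : ℝ) - x * SS k (FP τ (pol P c)) (zK (ε / 4) H) / ℓ ^ k| := by
      intro c hc
      rw [mem_filter, mem_filter, hBd, mem_filter] at hc
      obtain ⟨⟨⟨c1, c2⟩, c3⟩, c4⟩ := hc
      have c5 : ∀ i, ((WK (ε / 4) H : ℕ) : ℤ) ∣ c i - cs i := by
        intro i
        have : c i % (WK (ε / 4) H : ℕ) = cs i := congrFun c4 i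
        rw [← this]
        exact Int.dvd_self_sub_emod
      refine ⟨c1, ?_, ?_, ?_, c2⟩
      · intro h
        apply c3
        rw [hE0, mem_filter]
        exact ⟨c1, h⟩
      · rw [mem_Bx]
        intro i
        unfold box at c1
        rw [Fintype.mem_piFinset] at c1
        exact ⟨abs_le.2 (mem_Icc.1 (c1 i)), c5 i⟩
      · rw [hI]
        unfold II
        congr 1
        apply filter_congr
        intro n _
        apply forall₂_congr
        intro i _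
        exact cop_class P c cs (WK (ε / 4) H) c5 (pz τ n i)
    by_cases hK : Kc * ℓ ^ k ≤ I.card
    · have h1 := hcl cs I (pz τ) (by rw [← hℓ]; exact hK) (by
        intro n hn i hi
        rw [hI] at hn
        unfold II at hn
        rw [mem_filter, mem_filter] at hn
        exact hpos n hn.1.1 i hi) (by
        intro n hn i hi j hj hij
        rw [hI] at hn
        unfold II at hn
        rw [mem_filter, mem_filter] at hn
        exact hn.2 i hi j hj hij) (by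
        intro n hn i hi
        rw [hI] at hn
        unfold II at hn
        rw [mem_filter, mem_filter] at hn
        exact hn.1.2 i hi) (by
        intro n _
        rw [hK1, hDg]
        exact coll τ hτ I n)
      refine le_trans ?_ h1
      have hsub : (Bd.filter (fun c => c ∉ E0)).filter (fun c => rs (WK (ε / 4) H) c = cs) ⊆
          (Bx H (WK (ε / 4) H) cs).filter (fun c => δ * (I.card *
            ((WK (ε / 4) H : ℝ) / Nat.totient (WK (ε / 4) H)) ^ k) ≤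
          |∑ n ∈ I, Fw P (2 * TK E H) (pz τ n) k c -
            I.card * ((WK (ε / 4) H : ℝ) / Nat.totient (WK (ε / 4) H)) ^ k|) := by
        intro c hc
        obtain ⟨c1, c2, c3, c4, c5⟩ := hmem c hc
        rw [mem_filter]
        refine ⟨c3, ?_⟩
        by_contra hcon
        push Not at hcon
        have h2 := hgood c c1 c2 (by
          intro _
          rw [c4]
          exact hcon.le)
        linarith
      exact_mod_cast card_le_card hsub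
    · have hempty : (Bd.filter (fun c => c ∉ E0)).filter (fun c => rs (WK (ε / 4) H) c = cs) = ∅ := by
        rw [eq_empty_iff_forall_notMem]
        intro c hc
        obtain ⟨c1, c2, c3, c4, c5⟩ := hmem c hc
        have h2 := hgood c c1 c2 (by
          intro h
          rw [c4] at h
          exact absurd h hK)
        linarith
      rw [hempty, card_empty, Nat.cast_zero]
      exact hA0)
  have h9 : lam * (2 * (H : ℝ) + 1) ^ (2 * k) ≤ ε / 2 * H ^ (2 * k) := by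
    have h1 : (2 * (H : ℝ) + 1) ^ (2 * k) ≤ (3 * H) ^ (2 * k) :=
      pow_le_pow_left₀ (by positivity) (by linarith) _
    calc lam * (2 * (H : ℝ) + 1) ^ (2 * k) ≤ lam * (3 * H) ^ (2 * k) :=
          mul_le_mul_of_nonneg_left h1 hlam0.le
      _ = ε / 2 * H ^ (2 * k) := by
          rw [hlam, mul_pow, pow_mul 3 2 k, show (3 : ℝ) ^ 2 = 9 by norm_num]
          field_simp
  linarith

end Pool.Agent.N913.KT
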