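import Pool.Agent.N913.MG.L9

set_option autoImplicit false
set_option linter.unusedSectionVars false

/-! One form; boxes of coefficient vectors in a class; translations. -/

namespace Pool.Agent.N913.KT

open Finset
open Pool.Agent.N913.MT (th th_nonneg th_le)
open Pool.Agent.N913.MG (BVz AP1)

/-- one form, an interval of parameters -/
theorem one (R Y : ℕ) (M : ℕ → ℝ) (hM : BVz R Y M) (hM0 : ∀ q, 0 ≤ M q) (W : ℕ) (hW : 1 ≤ W)
    (Δ : ℤ) (hΔ : Δ ≠ 0) (hR : ∀ p : ℕ, p.Prime → p ∣ W * Δ.natAbs → p ≤ R) (u0 : ℤ) (U : ℕ)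
    (hY : |u0| + (W * Δ.natAbs * U : ℕ) + 1 ≤ Y) (hcop : u0.natAbs.Coprime (W * Δ.natAbs)) :
    |∑ u ∈ range U, th R (u0 + W * u * Δ).natAbs -
      U * (((W * Δ.natAbs : ℕ) : ℝ) / Nat.totient (W * Δ.natAbs))| ≤ 2 * M (W * Δ.natAbs) := by
  have hΔ1 : 1 ≤ Δ.natAbs := Int.natAbs_pos.2 hΔ
  obtain ⟨d, hd⟩ : ∃ d, d = W * Δ.natAbs := ⟨_, rfl⟩
  have hd1 : 1 ≤ d := by rw [hd]; exact Nat.mul_pos hW hΔ1
  rw [← hd] at hcop hY hR ⊢
  have key : ∀ v0 : ℤ, |v0| = |u0| → |∑ u ∈ range U, th R (v0 + d * u).natAbs -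
      U * ((d : ℝ) / Nat.totient d)| ≤ 2 * M d := by
    intro v0 hv
    have hvn : v0.natAbs = u0.natAbs := by
      have h1 : ((v0.natAbs : ℕ) : ℤ) = ((u0.natAbs : ℕ) : ℤ) := by
        rw [Int.natCast_natAbs, Int.natCast_natAbs, hv]
      exact_mod_cast h1
    have h1 := AP1 R Y M hM hM0 d 1 hd1 le_rfl (by rw [mul_one]; exact hR) v0 0 0 U (Nat.zero_le U)
      (by
        intro _
        have := neg_abs_le v0
        push_cast
        rw [hv] at this
        have h2 : (0 : ℤ) ≤ ((d * U : ℕ) : ℤ) := by positivity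
        linarith) (by
        intro _
        have := le_abs_self v0
        rw [hv] at this
        push_cast at hY ⊢
        linarith)
    rw [filter_true_of_mem (fun s _ => by exact Nat.modEq_one), mul_one, Nat.cast_zero, mul_zero,
      add_zero, hvn, if_pos hcop, ← range_eq_Ico] at h1
    have e : U * ((d : ℝ) / Nat.totient d) = (d : ℝ) * (U - (0 : ℕ)) / Nat.totient d := by
      push_cast; ring
    rw [e]
    exact h1
  rcases lt_or_gt_of_ne hΔ with h | h
  · have h2 := key (-u0) (abs_neg u0)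
    have e : ∀ u : ℕ, (u0 + W * u * Δ).natAbs = (-u0 + d * u).natAbs := by
      intro u
      rw [← Int.natAbs_neg]
      congr 1
      rw [hd]
      push_cast
      rw [abs_of_neg h]
      ring
    rw [sum_congr rfl (fun u _ => by rw [e u])]
    exact h2
  · have h2 := key u0 rfl
    have e : ∀ u : ℕ, (u0 + W * u * Δ).natAbs = (u0 + d * u).natAbs := by
      intro u
      congr 1
      rw [hd]
      push_cast
      rw [abs_of_pos h]
      ring
    rw [sum_congr rfl (fun u _ => by rw [e u])]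
    exact h2

/-- the coefficient vectors in a box and a class -/
noncomputable def Bx {N : ℕ} (H W : ℕ) (cs : Fin N → ℤ) : Finset (Fin N → ℤ) :=
  Fintype.piFinset (fun i => (Icc (-(H : ℤ)) H).filter (fun x => (W : ℤ) ∣ x - cs i))

theorem mem_Bx {N : ℕ} (H W : ℕ) (cs c : Fin N → ℤ) :
    c ∈ Bx H W cs ↔ ∀ i, |c i| ≤ H ∧ (W : ℤ) ∣ c i - cs i := by
  unfold Bx
  rw [Fintype.mem_piFinset]
  apply forall_congr'
  intro i
  rw [mem_filter, mem_Icc, abs_le]

/-- the vectors near the boundary -/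
noncomputable def strip {N : ℕ} (H W σ : ℕ) (cs : Fin N → ℤ) : Finset (Fin N → ℤ) :=
  (Bx H W cs).filter (fun c => ∃ i, (H : ℤ) - σ < |c i|)

theorem edge_card (H σ : ℕ) :
    ((Icc (-(H : ℤ)) H).filter (fun x => (H : ℤ) - σ < |x|)).card ≤ 2 * σ := by
  have h : (Icc (-(H : ℤ)) H).filter (fun x => (H : ℤ) - σ < |x|) ⊆
      Ioc ((H : ℤ) - σ) H ∪ Ico (-(H : ℤ)) (-(H : ℤ) + σ) := by
    intro x hx
    rw [mem_filter, mem_Icc] at hx
    rw [mem_union, mem_Ioc, mem_Ico]
    rcases le_total 0 x with h0 | h0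
    · rw [abs_of_nonneg h0] at hx
      left; omega
    · rw [abs_of_nonpos h0] at hx
      right; omega
  refine (card_le_card h).trans ((card_union_le _ _).trans ?_)
  rw [Int.card_Ioc, Int.card_Ico]
  omega

theorem strip_card {N : ℕ} (H W σ : ℕ) (cs : Fin N → ℤ) :
    ((strip H W σ cs).card : ℝ) ≤ N * (2 * σ) * (2 * H + 1) ^ (N - 1) := by
  classical
  have hsub : strip H W σ cs ⊆ (univ : Finset (Fin N)).biUnion (fun i =>
      Fintype.piFinset (Function.update (fun _ => Icc (-(H : ℤ)) H) i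
        ((Icc (-(H : ℤ)) H).filter (fun x => (H : ℤ) - σ < |x|)))) := by
    intro c hc
    unfold strip at hc
    rw [mem_filter, mem_Bx] at hc
    obtain ⟨hc1, i, hi⟩ := hc
    rw [mem_biUnion]
    refine ⟨i, mem_univ _, ?_⟩
    rw [Fintype.mem_piFinset]
    intro j
    by_cases hj : j = i
    · subst hj
      rw [Function.update_self, mem_filter, mem_Icc]
      exact ⟨abs_le.1 (hc1 j).1, hi⟩
    · rw [Function.update_of_ne hj, mem_Icc]
      exact abs_le.1 (hc1 j).1
  have hI : ((Icc (-(H : ℤ)) H).card : ℕ) = 2 * H + 1 := by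
    rw [Int.card_Icc]; omega
  have hone : ∀ i : Fin N, (Fintype.piFinset (Function.update (fun _ => Icc (-(H : ℤ)) H) i
        ((Icc (-(H : ℤ)) H).filter (fun x => (H : ℤ) - σ < |x|)))).card ≤
        2 * σ * (2 * H + 1) ^ (N - 1) := by
    intro i
    rw [Fintype.card_piFinset, ← mul_prod_erase univ _ (mem_univ i), Function.update_self]
    apply Nat.mul_le_mul (edge_card H σ)
    rw [prod_congr rfl (g := fun _ => 2 * H + 1) (fun j hj => by
      rw [Function.update_of_ne (ne_of_mem_erase hj), hI]), prod_const, card_erase_of_mem (mem_univ i),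
      card_univ, Fintype.card_fin]
  have h1 := (card_le_card hsub).trans card_biUnion_le
  have h2 := h1.trans (sum_le_card_nsmul _ _ _ (fun i _ => hone i))
  rw [card_univ, Fintype.card_fin, smul_eq_mul] at h2
  have h3 : ((strip H W σ cs).card : ℝ) ≤ ((N * (2 * σ * (2 * H + 1) ^ (N - 1)) : ℕ) : ℝ) := by
    exact_mod_cast h2
  refine h3.trans (le_of_eq ?_)
  push_cast
  ring

theorem transl_le {N : ℕ} (H W σ : ℕ) (cs s : Fin N → ℤ) (hs : ∀ i, (W : ℤ) ∣ s i)
    (hσ : ∀ i, |s i| ≤ σ) (F : (Fin N → ℤ) → ℝ) (hF0 : ∀ c, 0 ≤ F c) (B : ℝ)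
    (hF : ∀ c ∈ Bx H W cs, F (c + s) ≤ B) :
    ∑ c ∈ Bx H W cs, F (c + s) ≤ ∑ c ∈ Bx H W cs, F c + B * (strip H W σ cs).card := by
  classical
  rw [← sum_filter_add_sum_filter_not (Bx H W cs) (fun c => c + s ∈ Bx H W cs)]
  apply add_le_add
  · have h1 : ∑ c ∈ (Bx H W cs).filter (fun c => c + s ∈ Bx H W cs), F (c + s) =
        ∑ c ∈ ((Bx H W cs).filter (fun c => c + s ∈ Bx H W cs)).image (fun c => c + s), F c := by
      rw [sum_image]
      intro a _ b _ hab
      exact add_right_cancel hab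
    rw [h1]
    apply sum_le_sum_of_subset_of_nonneg
    · intro c hc
      rw [mem_image] at hc
      obtain ⟨a, ha, rfl⟩ := hc
      exact (mem_filter.1 ha).2
    · intro c _ _
      exact hF0 c
  · have h2 : (Bx H W cs).filter (fun c => ¬ c + s ∈ Bx H W cs) ⊆ strip H W σ cs := by
      intro c hc
      rw [mem_filter, mem_Bx, mem_Bx] at hc
      obtain ⟨hc1, hc2⟩ := hc
      unfold strip
      rw [mem_filter, mem_Bx]
      refine ⟨hc1, ?_⟩
      by_contra hcon
      push Not at hcon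
      apply hc2
      intro i
      have h3 := hcon i
      have h4 := hσ i
      constructor
      · rw [Pi.add_apply]
        have := abs_add_le (c i) (s i)
        linarith
      · rw [Pi.add_apply]
        have e : c i + s i - cs i = (c i - cs i) + s i := by ring
        rw [e]
        exact dvd_add (hc1 i).2 (hs i)
    have hB : 0 ≤ B ∨ (Bx H W cs).filter (fun c => ¬ c + s ∈ Bx H W cs) = ∅ := by
      by_cases hne : ((Bx H W cs).filter (fun c => ¬ c + s ∈ Bx H W cs)).Nonempty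
      · obtain ⟨c, hc⟩ := hne
        left
        exact (hF0 _).trans (hF c (mem_filter.1 hc).1)
      · right
        exact not_nonempty_iff_eq_empty.1 hne
    rcases hB with hB | hB
    · calc _ ≤ ∑ c ∈ (Bx H W cs).filter (fun c => ¬ c + s ∈ Bx H W cs), B :=
            sum_le_sum fun c hc => hF c (mem_filter.1 hc).1
        _ = B * ((Bx H W cs).filter (fun c => ¬ c + s ∈ Bx H W cs)).card := by
            rw [sum_const, nsmul_eq_mul, mul_comm]
        _ ≤ _ := by
            apply mul_le_mul_of_nonneg_left _ hB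
            exact_mod_cast card_le_card h2
    · rw [hB, sum_empty]
      by_cases hne : (Bx H W cs).Nonempty
      · obtain ⟨c, hc⟩ := hne
        exact mul_nonneg ((hF0 _).trans (hF c hc)) (Nat.cast_nonneg _)
      · rw [not_nonempty_iff_eq_empty] at hne
        have : strip H W σ cs = ∅ := by unfold strip; rw [hne]; rfl
        rw [this, card_empty, Nat.cast_zero, mul_zero]

/-- translations -/
theorem transl {N : ℕ} (H W σ : ℕ) (cs s : Fin N → ℤ) (hs : ∀ i, (W : ℤ) ∣ s i)
    (hσ : ∀ i, |s i| ≤ σ) (F : (Fin N → ℤ) → ℝ) (hF0 : ∀ c, 0 ≤ F c) (B : ℝ)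
    (hF : ∀ c ∈ Bx H W cs, F (c + s) ≤ B) (hF' : ∀ c ∈ Bx H W cs, F c ≤ B) :
    |∑ c ∈ Bx H W cs, F (c + s) - ∑ c ∈ Bx H W cs, F c| ≤ B * (strip H W σ cs).card := by
  have h1 := transl_le H W σ cs s hs hσ F hF0 B hF
  have h2 := transl_le H W σ cs (-s) (fun i => by rw [Pi.neg_apply, dvd_neg]; exact hs i)
    (fun i => by rw [Pi.neg_apply, abs_neg]; exact hσ i) (fun c => F (c + s)) (fun c => hF0 _) B
    (fun c hc => by simpa using hF' c hc)
  simp only [neg_add_cancel_right] at h2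
  rw [abs_le]
  constructor <;> linarith

end Pool.Agent.N913.KT
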