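import Pool.Agent.N913.KT.T2

set_option autoImplicit false
set_option linter.unusedSectionVars false

/-! Moments. -/

namespace Pool.Agent.N913.KT

open Finset Polynomial
open Pool.Agent.N913.MT (th th_nonneg th_le tot_prod)
open Pool.Agent.N913.MG (BVz AP1 kappa2)

theorem numeric (a ρ : ℕ → ℝ) (n : ℕ) (K Λ ξ : ℝ) (hK : 0 ≤ K) (hΛ : 1 ≤ Λ) (hξ0 : 0 ≤ ξ)
    (hξ1 : ξ ≤ 1) (h0 : a 0 = K) (ha : ∀ m, 0 ≤ a m) (hρ : ∀ m < n, 0 ≤ ρ m ∧ ρ m ≤ Λ)
    (hstep : ∀ m < n, |a (m + 1) - ρ m * a m| ≤ ξ * a m + ξ * K) :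
    ∀ m ≤ n, a m ≤ K * (Λ + 2) ^ m ∧
      |a m - K * ∏ j ∈ range m, ρ j| ≤ m * ξ * K * (Λ + 2) ^ m := by
  intro m
  induction m with
  | zero =>
    intro _
    rw [h0]
    simp
  | succ m ih =>
    intro hm
    obtain ⟨h1, h2⟩ := ih (by omega)
    obtain ⟨r1, r2⟩ := hρ m (by omega)
    have hs := hstep m (by omega)
    have ham := ha m
    have hp : 1 ≤ (Λ + 2) ^ m := one_le_pow₀ (by linarith)
    have hKp : K ≤ K * (Λ + 2) ^ m := by nlinarith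
    obtain ⟨Z, hZ⟩ : ∃ Z, Z = K * (Λ + 2) ^ m := ⟨_, rfl⟩
    rw [← hZ] at h1 hKp
    have hZ0 : 0 ≤ Z := by linarith
    have e0 : K * (Λ + 2) ^ (m + 1) = Z * (Λ + 2) := by rw [hZ, pow_succ]; ring
    have hs' := abs_le.1 hs
    have b1 : ξ * a m ≤ Z := by
      calc ξ * a m ≤ 1 * a m := mul_le_mul_of_nonneg_right hξ1 ham
        _ ≤ Z := by linarith
    have b2 : ξ * K ≤ Z := by
      calc ξ * K ≤ 1 * K := mul_le_mul_of_nonneg_right hξ1 hK
        _ ≤ Z := by linarith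
    have b3 : ρ m * a m ≤ Λ * Z := mul_le_mul r2 h1 ham (by linarith)
    constructor
    · rw [e0]
      linarith [hs'.2]
    · have e1 : a (m + 1) - K * ∏ j ∈ range (m + 1), ρ j =
          (a (m + 1) - ρ m * a m) + ρ m * (a m - K * ∏ j ∈ range m, ρ j) := by
        rw [prod_range_succ]; ring
      have e2 : ((m + 1 : ℕ) : ℝ) * ξ * K * (Λ + 2) ^ (m + 1) = (m + 1) * ξ * (Z * (Λ + 2)) := by
        rw [← e0]; push_cast; ring
      have e3 : (m : ℝ) * ξ * K * (Λ + 2) ^ m = m * ξ * Z := by rw [hZ]; ring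
      rw [e3] at h2
      rw [e1, e2]
      have b4 : |ρ m * (a m - K * ∏ j ∈ range m, ρ j)| ≤ Λ * (m * ξ * Z) := by
        rw [abs_mul, abs_of_nonneg r1]
        exact mul_le_mul r2 h2 (abs_nonneg _) (by linarith)
      have b5 : ξ * a m ≤ ξ * Z := mul_le_mul_of_nonneg_left h1 hξ0
      have b6 : ξ * K ≤ ξ * Z := mul_le_mul_of_nonneg_left hKp hξ0
      have b7 : 0 ≤ ξ * Z := mul_nonneg hξ0 hZ0
      have b8 : 0 ≤ (m : ℝ) * (ξ * Z) := mul_nonneg (Nat.cast_nonneg _) b7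
      calc _ ≤ |a (m + 1) - ρ m * a m| + |ρ m * (a m - K * ∏ j ∈ range m, ρ j)| := abs_add_le _ _
        _ ≤ (ξ * Z + ξ * Z) + Λ * (m * ξ * Z) := by linarith
        _ ≤ (m + 1) * ξ * (Z * (Λ + 2)) := by nlinarith

/-- local factor -/
noncomputable def rh (W : ℕ) (t : ℕ → ℤ) (j : ℕ) : ℝ :=
  ((W * (Dl t j).natAbs : ℕ) : ℝ) / Nat.totient (W * (Dl t j).natAbs)

theorem rh_ge (W : ℕ) (hW : 1 ≤ W) (δ : ℕ) (hδ : 1 ≤ δ) :
    (W : ℝ) / Nat.totient W ≤ ((W * δ : ℕ) : ℝ) / Nat.totient (W * δ) := by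
  have hφ : (0 : ℝ) < Nat.totient W := by exact_mod_cast Nat.totient_pos.2 hW
  have hWδ : 1 ≤ W * δ := Nat.mul_pos hW hδ
  have hφ2 : (0 : ℝ) < Nat.totient (W * δ) := by exact_mod_cast Nat.totient_pos.2 hWδ
  have hfac : ∀ p : ℕ, p.Prime → 0 ≤ 1 - 1 / (p : ℝ) ∧ 1 - 1 / (p : ℝ) ≤ 1 := by
    intro p hp
    have h6 : (1 : ℝ) ≤ p := by exact_mod_cast hp.one_lt.le
    have : 1 / (p : ℝ) ≤ 1 := by rw [div_le_one (by linarith)]; linarith
    have h7 : 0 ≤ 1 / (p : ℝ) := by positivity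
    constructor <;> linarith
  have h1 : (∏ p ∈ (W * δ).primeFactors, (1 - 1 / (p : ℝ))) ≤ ∏ p ∈ W.primeFactors, (1 - 1 / (p : ℝ)) := by
    have hsub : W.primeFactors ⊆ (W * δ).primeFactors :=
      Nat.primeFactors_mono (Dvd.intro _ rfl) (by omega)
    rw [← prod_sdiff hsub]
    have h4 : ∏ p ∈ (W * δ).primeFactors \ W.primeFactors, (1 - 1 / (p : ℝ)) ≤ 1 := by
      apply prod_le_one
      · intro p hp
        exact (hfac p (Nat.prime_of_mem_primeFactors (mem_sdiff.1 hp).1)).1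
      · intro p hp
        exact (hfac p (Nat.prime_of_mem_primeFactors (mem_sdiff.1 hp).1)).2
    have h5 : 0 ≤ ∏ p ∈ W.primeFactors, (1 - 1 / (p : ℝ)) :=
      prod_nonneg fun p hp => (hfac p (Nat.prime_of_mem_primeFactors hp)).1
    calc _ ≤ 1 * ∏ p ∈ W.primeFactors, (1 - 1 / (p : ℝ)) := mul_le_mul_of_nonneg_right h4 h5
      _ = _ := one_mul _
  rw [div_le_div_iff₀ hφ hφ2, tot_prod W, tot_prod (W * δ)]
  calc (W : ℝ) * (((W * δ : ℕ) : ℝ) * ∏ p ∈ (W * δ).primeFactors, (1 - 1 / (p : ℝ))) ≤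
        (W : ℝ) * (((W * δ : ℕ) : ℝ) * ∏ p ∈ W.primeFactors, (1 - 1 / (p : ℝ))) := by
        apply mul_le_mul_of_nonneg_left _ (by positivity)
        exact mul_le_mul_of_nonneg_left h1 (by positivity)
    _ = _ := by ring

theorem rh_le (W z0 : ℕ) (hW : 1 ≤ W) (δ : ℕ) (hδ : 1 ≤ δ) (hz : 2 ≤ z0)
    (hWz : ∀ p : ℕ, p.Prime → ¬ p ∣ W → z0 ≤ p) (η : ℝ) (hη0 : 0 ≤ η) (hη : η ≤ 1 / 2)
    (hδη : Real.log δ ≤ η * (z0 * Real.log z0)) :
    ((W * δ : ℕ) : ℝ) / Nat.totient (W * δ) ≤ (1 + 2 * η) * ((W : ℝ) / Nat.totient W) := by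
  have h := kappa2 W δ z0 hW hδ hz hWz η hη0 hη hδη
  have hW0 : (0 : ℝ) ≤ W := Nat.cast_nonneg _
  rw [mul_comm δ W] at h
  have h2 := mul_le_mul_of_nonneg_left h hW0
  calc ((W * δ : ℕ) : ℝ) / Nat.totient (W * δ) = W * (δ / Nat.totient (W * δ)) := by
        push_cast; ring
    _ ≤ W * ((1 + 2 * η) / Nat.totient W) := h2
    _ = _ := by ring

/-- moments of products of `n` weights -/
theorem moment {N : ℕ} (P : ℤ[X]) (R Y : ℕ) (M : ℕ → ℝ) (hM : BVz R Y M) (hM0 : ∀ q, 0 ≤ M q)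
    (W z0 : ℕ) (hW : 1 ≤ W) (hz : 2 ≤ z0) (hWz : ∀ p : ℕ, p.Prime → ¬ p ∣ W → z0 ≤ p)
    (H σ U T : ℕ) (hU : 1 ≤ U) (cs : Fin N → ℤ) (t : ℕ → ℤ) (n : ℕ) (hn : n ≤ N)
    (hT : ∀ l < n, |t l| ≤ T) (hinj : ∀ l < n, ∀ l' < n, l ≠ l' → t l ≠ t l')
    (hWR : ∀ p : ℕ, p.Prime → p ∣ W → p ≤ R) (hTR : 2 * T ≤ R)
    (hcl : ∀ l < n, ((pol P cs).eval (t l)).natAbs.Coprime W)
    (hσ : W * U * (1 + T) ^ N ≤ σ)
    (hY : ∀ c : Fin N → ℤ, (∀ i, |c i| ≤ H + σ) → ∀ x : ℤ, |x| ≤ T →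
      |(pol P c).eval x| + (W * (2 * T) ^ N * U : ℕ) + 1 ≤ Y) (hT1 : 1 ≤ T)
    (η : ℝ) (hη0 : 0 ≤ η) (hη : η ≤ 1 / 2) (hδη : Real.log ((2 * T : ℕ) ^ N : ℕ) ≤ η * (z0 * Real.log z0))
    (ξ : ℝ) (hξ0 : 0 ≤ ξ) (hξ1 : ξ ≤ 1)
    (hξM : ∀ δ : ℕ, 1 ≤ δ → δ ≤ (2 * T) ^ N → 2 * M (W * δ) / U ≤ ξ)
    (hL : 1 ≤ Real.log Y)
    (hξs : Real.log Y ^ N * (strip H W σ cs).card ≤ ξ * (Bx H W cs).card) :
    (Bx H W cs).card * ((W : ℝ) / Nat.totient W) ^ n -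
        n * ξ * (Bx H W cs).card * (2 * ((W : ℝ) / Nat.totient W) + 2) ^ n ≤
        ∑ c ∈ Bx H W cs, Fw P R t n c ∧
      ∑ c ∈ Bx H W cs, Fw P R t n c ≤
        (Bx H W cs).card * ((1 + 2 * η) * ((W : ℝ) / Nat.totient W)) ^ n +
        n * ξ * (Bx H W cs).card * (2 * ((W : ℝ) / Nat.totient W) + 2) ^ n := by
  obtain ⟨ω, hω⟩ : ∃ ω, ω = (W : ℝ) / Nat.totient W := ⟨_, rfl⟩
  rw [← hω]
  have hω1 : 1 ≤ ω := by
    have h1 : (0 : ℝ) < Nat.totient W := by exact_mod_cast Nat.totient_pos.2 hW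
    rw [hω, le_div_iff₀ h1, one_mul]
    exact_mod_cast Nat.totient_le W
  have hδ1 : ∀ j < n, 1 ≤ (Dl t j).natAbs := fun j hj =>
    Int.natAbs_pos.2 (Dl_ne t j (fun l hl => hinj l (by omega) j hj (by omega)))
  have h2T : 1 ≤ 2 * T := by omega
  have hδ2 : ∀ j < n, (Dl t j).natAbs ≤ (2 * T) ^ N := fun j hj =>
    (Dl_le t j T (fun l hl => hT l (by omega))).trans (Nat.pow_le_pow_right h2T (by omega))
  have hr1 : ∀ j < n, ω ≤ rh W t j := fun j hj => by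
    rw [hω]; exact rh_ge W hW _ (hδ1 j hj)
  have hr2 : ∀ j < n, rh W t j ≤ (1 + 2 * η) * ω := fun j hj => by
    rw [hω]
    apply rh_le W z0 hW _ (hδ1 j hj) hz hWz η hη0 hη
    refine le_trans (Real.log_le_log (by exact_mod_cast hδ1 j hj) ?_) hδη
    exact_mod_cast hδ2 j hj
  have hnum := numeric (fun m => ∑ c ∈ Bx H W cs, Fw P R t m c) (rh W t) n (Bx H W cs).card (2 * ω) ξ
    (Nat.cast_nonneg _) (by linarith) hξ0 hξ1 (by
      simp only [Fw, range_zero, prod_empty, sum_const, nsmul_eq_mul, mul_one])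
    (fun m => sum_nonneg fun c _ => Fw_nonneg P R t m c) (fun m hm => ⟨by linarith [hr1 m hm], by
      have := hr2 m hm
      nlinarith⟩) (fun m hm => by
      have h1 := step P R Y M hM hM0 W hW H σ U T hU cs t m (by omega) (fun l hl => hT l (by omega))
        (fun l hl => hinj l (by omega) m hm (by omega)) hWR hTR (hcl m hm) (by
          refine le_trans ?_ hσ
          apply Nat.mul_le_mul_left
          exact Nat.pow_le_pow_right (by omega) (by omega)) (by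
          intro c hc x hx
          refine le_trans ?_ (hY c hc x hx)
          have h2 : W * (2 * T) ^ m * U ≤ W * (2 * T) ^ N * U := by
            apply Nat.mul_le_mul_right
            apply Nat.mul_le_mul_left
            exact Nat.pow_le_pow_right h2T (by omega)
          have h3 : ((W * (2 * T) ^ m * U : ℕ) : ℤ) ≤ ((W * (2 * T) ^ N * U : ℕ) : ℤ) := by
            exact_mod_cast h2
          linarith)
      refine h1.trans ?_
      apply add_le_add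
      · apply mul_le_mul_of_nonneg_right (hξM _ (hδ1 m hm) (hδ2 m hm))
        exact sum_nonneg fun c _ => Fw_nonneg P R t m c
      · refine le_trans ?_ hξs
        apply mul_le_mul_of_nonneg_right _ (Nat.cast_nonneg _)
        exact pow_le_pow_right₀ hL (by omega))
  have h1 := (hnum n le_rfl).2
  have hK0 : (0 : ℝ) ≤ (Bx H W cs).card := Nat.cast_nonneg _
  have hlo : ω ^ n ≤ ∏ j ∈ range n, rh W t j := by
    have h2 := prod_le_prod (s := range n) (f := fun _ => ω) (g := fun j => rh W t j)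
      (fun _ _ => by linarith) (fun j hj => hr1 j (mem_range.1 hj))
    rwa [prod_const, card_range] at h2
  have hhi : ∏ j ∈ range n, rh W t j ≤ ((1 + 2 * η) * ω) ^ n := by
    have h2 := prod_le_prod (s := range n) (f := fun j => rh W t j) (g := fun _ => (1 + 2 * η) * ω)
      (fun j hj => by linarith [hr1 j (mem_range.1 hj)]) (fun j hj => hr2 j (mem_range.1 hj))
    rwa [prod_const, card_range] at h2
  have h3 := mul_le_mul_of_nonneg_left hlo hK0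
  have h4 := mul_le_mul_of_nonneg_left hhi hK0
  rw [abs_le] at h1
  constructor
  · linarith [h1.1]
  · linarith [h1.2]

end Pool.Agent.N913.KT
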