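import Pool.Agent.N913.KT.T4
import Pool.Agent.N913.MG.L12

set_option autoImplicit false
set_option linter.unusedSectionVars false

/-! Parameters. -/

namespace Pool.Agent.N913.KT

open Finset Polynomial Filter
open Pool.Agent.N913.MT (th th_nonneg th_le tot_prod zX WX GX HX Wz Wz_le Wz_pos dvd_Wz evt_log_pow
  evt_log_ge zX_evt TT BS)
open Pool.Agent.N913.MG (BVz AP1 kappa2 bvz)

theorem sw (U : ℕ) : ∃ X0 : ℕ, ∀ Y : ℕ, X0 ≤ Y → ∃ M : ℕ → ℝ, (∀ q, 0 ≤ M q) ∧
    (∀ R : ℕ, R ≤ Y.sqrt → BVz R Y M) ∧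
    ∀ q : ℕ, 1 ≤ q → q ≤ Y.sqrt.sqrt → M q ≤ Y / (Real.log Y) ^ U := by
  obtain ⟨X0, hX0⟩ := bvz U 0
  refine ⟨max X0 3, fun Y hY => ?_⟩
  obtain ⟨M, h1, h2, h3⟩ := hX0 Y ((le_max_left _ _).trans hY)
  have hY3 : 3 ≤ Y := (le_max_right _ _).trans hY
  refine ⟨M, h1, h2, fun q hq hqY => ?_⟩
  have h4 := h3 ∅ (by simp) (by simp) (by simp) (by
    have hY3' : (3 : ℝ) ≤ Y := by exact_mod_cast hY3
    have hl : 1 ≤ Real.log Y := by
      rw [Real.le_log_iff_exp_le (by linarith)]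
      have := Real.exp_one_lt_d9
      linarith
    have := Real.log_nonneg hl
    rw [Fintype.sum_eq_zero _ (fun t => absurd t.2 (notMem_empty _))]
    linarith) 1 (by rw [one_pow]; omega) q hq (by rw [mul_one]; exact hqY) 0 le_rfl (by simp)
  refine le_trans ?_ h4
  unfold BS
  have hmem : (∅ : Finset (∅ : Finset ℕ)) ∈ (univ : Finset (Finset (∅ : Finset ℕ))).filter
      (fun T => TT T ≤ 1) := by
    rw [mem_filter]
    refine ⟨mem_univ _, ?_⟩
    unfold TT
    rw [prod_empty]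
  have h5 := single_le_sum (f := fun T : Finset (∅ : Finset ℕ) => (0 : ℝ) ^ T.card * M (q * TT T))
    (fun T _ => mul_nonneg (by positivity) (h1 _)) hmem
  refine le_trans (le_of_eq ?_) h5
  unfold TT
  simp

theorem Bx_card {N : ℕ} (H W : ℕ) (hW : 1 ≤ W) (hWH : W ≤ H) (cs : Fin N → ℤ) :
    ((H : ℝ) / W) ^ N ≤ (Bx H W cs).card := by
  classical
  unfold Bx
  rw [Fintype.card_piFinset]
  push_cast
  have hone : ∀ i : Fin N, (H : ℝ) / W ≤
      (((Icc (-(H : ℤ)) H).filter (fun x => (W : ℤ) ∣ x - cs i)).card : ℝ) := by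
    intro i
    obtain ⟨q, hq⟩ : ∃ q, q = H / W := ⟨_, rfl⟩
    have hq1 : 1 ≤ q := by rw [hq]; exact Nat.div_pos hWH hW
    have hqH : W * q ≤ H := by rw [hq]; exact Nat.mul_div_le H W
    have hqH2 : H < W * (q + 1) := by rw [hq]; exact Nat.lt_mul_div_succ H hW
    have hW0 : (0 : ℤ) < W := by exact_mod_cast hW
    have h1 : 2 * q ≤ ((Icc (-(H : ℤ)) H).filter (fun x => (W : ℤ) ∣ x - cs i)).card := by
      have h2 : 2 * q = (range (2 * q)).card := (card_range _).symm
      rw [h2]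
      apply card_le_card_of_injOn (fun j : ℕ => cs i % W + W * ((j : ℤ) - q))
      · intro j hj
        rw [mem_coe, mem_range] at hj
        rw [mem_coe, mem_filter, mem_Icc]
        have e1 := Int.emod_nonneg (cs i) hW0.ne'
        have e2 := Int.emod_lt_of_pos (cs i) hW0
        have e3 : (W : ℤ) * q ≤ H := by exact_mod_cast hqH
        have e4 : -((W : ℤ) * q) ≤ W * ((j : ℤ) - q) := by nlinarith [Int.natCast_nonneg j]
        have e5 : (W : ℤ) * ((j : ℤ) - q) ≤ W * (q - 1) := by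
          apply mul_le_mul_of_nonneg_left _ hW0.le
          have : (j : ℤ) < 2 * q := by exact_mod_cast hj
          linarith
        refine ⟨⟨by linarith, by nlinarith⟩, ?_⟩
        have e6 : cs i % W + W * ((j : ℤ) - q) - cs i = W * ((j : ℤ) - q) - (cs i - cs i % W) := by ring
        rw [e6]
        exact dvd_sub (Dvd.intro _ rfl) Int.dvd_self_sub_emod
      · intro j _ j' _ hjj
        simp only at hjj
        have h3 : (W : ℤ) * ((j : ℤ) - q) = W * ((j' : ℤ) - q) := by linarith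
        have h4 := mul_left_cancel₀ hW0.ne' h3
        have h5 : (j : ℤ) = j' := by linarith
        exact_mod_cast h5
    have hWr : (0 : ℝ) < W := by exact_mod_cast hW
    rw [div_le_iff₀ hWr]
    have h6 : (H : ℝ) ≤ W * (q + 1) := by exact_mod_cast hqH2.le
    have h7 : (q : ℝ) + 1 ≤ 2 * q := by
      have : (1 : ℝ) ≤ q := by exact_mod_cast hq1
      linarith
    have h8 : (2 * (q : ℝ)) ≤ (((Icc (-(H : ℤ)) H).filter (fun x => (W : ℤ) ∣ x - cs i)).card : ℝ) := by
      exact_mod_cast h1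
    calc (H : ℝ) ≤ W * (q + 1) := h6
      _ ≤ W * (2 * q) := mul_le_mul_of_nonneg_left h7 hWr.le
      _ ≤ W * _ := mul_le_mul_of_nonneg_left h8 hWr.le
      _ = _ := mul_comm _ _
  calc ((H : ℝ) / W) ^ N = ∏ _i : Fin N, ((H : ℝ) / W) := by
        rw [prod_const, card_univ, Fintype.card_fin]
    _ ≤ _ := prod_le_prod (fun _ _ => by positivity) (fun i _ => hone i)

end Pool.Agent.N913.KT
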