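import Pool.Agent.N913.KT.T5

set_option autoImplicit false
set_option linter.unusedSectionVars false

/-! Counting residue classes; the product formula. -/

namespace Pool.Agent.N913.KT

open Finset Polynomial Filter
open Pool.Agent.N913.MT (th th_nonneg th_le tot_prod Wz Wz_le Wz_pos dvd_Wz cmod)

theorem crt_two (m n : ℕ) (hm : 1 ≤ m) (hn : 1 ≤ n) (h : m.Coprime n) (A B : ℕ → Prop)
    [DecidablePred A] [DecidablePred B] :
    ((range (m * n)).filter (fun i => A (i % m) ∧ B (i % n))).card =
      ((range m).filter A).card * ((range n).filter B).card := by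
  rw [← card_product]
  apply card_nbij' (fun i => (i % m, i % n)) (fun x => (Nat.chineseRemainder h x.1 x.2 : ℕ))
  · intro i hi
    simp only [mem_coe, mem_filter, mem_range, mem_product] at hi ⊢
    exact ⟨⟨Nat.mod_lt _ hm, hi.2.1⟩, ⟨Nat.mod_lt _ hn, hi.2.2⟩⟩
  · intro x hx
    simp only [mem_coe, mem_filter, mem_range, mem_product] at hx ⊢
    have h1 := (Nat.chineseRemainder h x.1 x.2).2
    have e1 : (Nat.chineseRemainder h x.1 x.2 : ℕ) % m = x.1 := by
      have h2 := h1.1
      unfold Nat.ModEq at h2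
      rw [h2, Nat.mod_eq_of_lt hx.1.1]
    have e2 : (Nat.chineseRemainder h x.1 x.2 : ℕ) % n = x.2 := by
      have h2 := h1.2
      unfold Nat.ModEq at h2
      rw [h2, Nat.mod_eq_of_lt hx.2.1]
    rw [e1, e2]
    exact ⟨Nat.chineseRemainder_lt_mul h _ _ (by omega) (by omega), hx.1.2, hx.2.2⟩
  · intro i hi
    simp only [mem_coe, mem_filter, mem_range] at hi
    have h1 := (Nat.chineseRemainder h (i % m) (i % n)).2
    have h2 : (Nat.chineseRemainder h (i % m) (i % n) : ℕ) ≡ i [MOD m * n] := by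
      rw [← Nat.modEq_and_modEq_iff_modEq_mul h]
      exact ⟨h1.1.trans (Nat.mod_modEq _ _), h1.2.trans (Nat.mod_modEq _ _)⟩
    exact h2.eq_of_lt_of_lt (Nat.chineseRemainder_lt_mul h _ _ (by omega) (by omega)) hi.1
  · intro x hx
    simp only [mem_coe, mem_filter, mem_range, mem_product] at hx
    have h1 := (Nat.chineseRemainder h x.1 x.2).2
    have e1 : (Nat.chineseRemainder h x.1 x.2 : ℕ) % m = x.1 := by
      have h2 := h1.1
      unfold Nat.ModEq at h2
      rw [h2, Nat.mod_eq_of_lt hx.1.1]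
    have e2 : (Nat.chineseRemainder h x.1 x.2 : ℕ) % n = x.2 := by
      have h2 := h1.2
      unfold Nat.ModEq at h2
      rw [h2, Nat.mod_eq_of_lt hx.2.1]
    exact Prod.ext e1 e2

theorem crt_prod (S : Finset ℕ) : (∀ p ∈ S, p.Prime) → ∀ (g : ℕ → ℕ → Prop)
    [∀ p, DecidablePred (g p)],
    ((range (∏ p ∈ S, p)).filter (fun i => ∀ p ∈ S, g p (i % p))).card =
      ∏ p ∈ S, ((range p).filter (g p)).card := by
  classical
  induction S using Finset.induction_on with
  | empty =>
    intro _ g _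
    simp
  | insert q S hq ih =>
    intro hS g _
    rw [prod_insert hq, prod_insert hq]
    have hS' : ∀ p ∈ S, p.Prime := fun p hp => hS p (mem_insert_of_mem hp)
    have hqp := hS q (mem_insert_self _ _)
    have hcop : q.Coprime (∏ p ∈ S, p) := by
      apply Nat.Coprime.prod_right
      intro p hp
      rw [Nat.coprime_primes hqp (hS' p hp)]
      rintro rfl
      exact hq hp
    have hpos : 1 ≤ ∏ p ∈ S, p := by
      have : 0 < ∏ p ∈ S, p := prod_pos fun p hp => (hS' p hp).pos
      exact this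
    rw [← ih hS' g, ← crt_two q (∏ p ∈ S, p) hqp.one_lt.le hpos hcop (g q) (fun j => ∀ p ∈ S, g p (j % p))]
    congr 1
    apply filter_congr
    intro i _
    rw [forall_mem_insert]
    apply and_congr Iff.rfl
    apply forall₂_congr
    intro p hp
    rw [Nat.mod_mod_of_dvd _ (dvd_prod_of_mem (fun p => p) hp)]

theorem ioc_mod (J x W i : ℕ) (hW : 1 ≤ W) :
    |(((Ioc J (J + x)).filter (fun n => n ≡ i [MOD W])).card : ℝ) - x / W| ≤ 1 := by
  have hkey : ∀ s : ℕ, s ≡ i + (W - 1) * (J + 1) [MOD W] ↔ J + 1 + s ≡ i [MOD W] := by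
    intro s
    have h0 : J + 1 + (i + (W - 1) * (J + 1)) ≡ i [MOD W] := by
      obtain ⟨w, rfl⟩ : ∃ w, W = w + 1 := ⟨W - 1, by omega⟩
      have e : J + 1 + (i + (w + 1 - 1) * (J + 1)) = i + (w + 1) * (J + 1) := by
        rw [Nat.add_sub_cancel]; ring
      rw [e]
      unfold Nat.ModEq
      simp
    constructor
    · intro h
      exact (Nat.ModEq.add_left (J + 1) h).trans h0
    · intro h
      exact Nat.ModEq.add_left_cancel' (J + 1) (h.trans h0.symm)
  have e : ((Ioc J (J + x)).filter (fun n => n ≡ i [MOD W])).card =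
      ((range x).filter (fun s => s ≡ i + (W - 1) * (J + 1) [MOD W])).card := by
    symm
    apply card_nbij' (fun s => J + 1 + s) (fun n => n - (J + 1))
    · intro s hs
      simp only [mem_coe, mem_filter, mem_range, mem_Ioc] at hs ⊢
      exact ⟨by omega, (hkey s).1 hs.2⟩
    · intro n hn
      simp only [mem_coe, mem_filter, mem_range, mem_Ioc] at hn ⊢
      refine ⟨by omega, (hkey _).2 ?_⟩
      rw [show J + 1 + (n - (J + 1)) = n by omega]
      exact hn.2
    · intro s _
      simp
    · intro n hn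
      simp only [mem_coe, mem_filter, mem_Ioc] at hn
      simp only
      omega
  rw [e]
  exact cmod x W _ hW

theorem window (J x W : ℕ) (hW : 1 ≤ W) (A : ℕ → Prop) [DecidablePred A] (hA : ∀ n, A n ↔ A (n % W)) :
    |(((Ioc J (J + x)).filter A).card : ℝ) - x * (((range W).filter A).card : ℝ) / W| ≤
      ((range W).filter A).card := by
  have h1 : ((Ioc J (J + x)).filter A).card = ∑ i ∈ (range W).filter A,
      (((Ioc J (J + x)).filter A).filter (fun n => n % W = i)).card := by
    apply card_eq_sum_card_fiberwise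
    intro n hn
    rw [mem_coe, mem_filter] at hn
    rw [mem_coe, mem_filter, mem_range]
    exact ⟨Nat.mod_lt _ hW, (hA n).1 hn.2⟩
  have h2 : ∀ i ∈ (range W).filter A, (((Ioc J (J + x)).filter A).filter (fun n => n % W = i)).card =
      ((Ioc J (J + x)).filter (fun n => n ≡ i [MOD W])).card := by
    intro i hi
    rw [mem_filter, mem_range] at hi
    rw [filter_filter]
    congr 1
    apply filter_congr
    intro n _
    unfold Nat.ModEq
    rw [Nat.mod_eq_of_lt hi.1]
    constructor
    · exact fun h => h.2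
    · intro h
      refine ⟨?_, h⟩
      rw [hA n, h]
      exact hi.2
  rw [h1, sum_congr rfl h2]
  push_cast
  have e : ∑ i ∈ (range W).filter A, (((Ioc J (J + x)).filter (fun n => n ≡ i [MOD W])).card : ℝ) -
      x * (((range W).filter A).card : ℝ) / W =
      ∑ i ∈ (range W).filter A, ((((Ioc J (J + x)).filter (fun n => n ≡ i [MOD W])).card : ℝ) - x / W) := by
    rw [sum_sub_distrib, sum_const, nsmul_eq_mul]
    ring
  rw [e]
  refine (abs_sum_le_sum_abs _ _).trans ((sum_le_card_nsmul _ _ 1 (fun i _ => ioc_mod J x W i hW)).trans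
    (le_of_eq ?_))
  rw [nsmul_eq_mul, mul_one]

/-- number of zeros modulo `p` -/
noncomputable def om (F : ℤ[X]) (p : ℕ) : ℕ := ((range p).filter (fun n : ℕ => (p : ℤ) ∣ F.eval (n : ℤ))).card

/-- the product over the primes below `z` -/
noncomputable def SS (k : ℕ) (F : ℤ[X]) (z : ℕ) : ℝ :=
  ∏ p ∈ (range z).filter Nat.Prime, (1 - (om F p : ℝ) / p) / (1 - 1 / (p : ℝ)) ^ k

theorem cop_Wz (z : ℕ) (a : ℤ) :
    a.natAbs.Coprime (Wz z) ↔ ∀ p ∈ (range z).filter Nat.Prime, ¬ (p : ℤ) ∣ a := by
  unfold Wz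
  rw [Nat.coprime_prod_right_iff]
  apply forall₂_congr
  intro p hp
  rw [Nat.coprime_comm, (mem_filter.1 hp).2.coprime_iff_not_dvd, Int.natCast_dvd]

theorem good_card (k z : ℕ) (F : ℤ[X]) :
    ((((range (Wz z)).filter (fun i : ℕ => (F.eval (i : ℤ)).natAbs.Coprime (Wz z))).card : ℝ) / Wz z) *
      ((Wz z : ℝ) / Nat.totient (Wz z)) ^ k = SS k F z := by
  classical
  have hW := Wz_pos z
  have hW0 : (0 : ℝ) < Wz z := by exact_mod_cast hW
  have hpr : ∀ p ∈ (range z).filter Nat.Prime, p.Prime := fun p hp => (mem_filter.1 hp).2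
  have h1 : ((range (Wz z)).filter (fun i : ℕ => (F.eval (i : ℤ)).natAbs.Coprime (Wz z))).card =
      ∏ p ∈ (range z).filter Nat.Prime, ((range p).filter (fun n : ℕ => ¬ (p : ℤ) ∣ F.eval (n : ℤ))).card := by
    rw [← crt_prod _ hpr (fun p n => ¬ (p : ℤ) ∣ F.eval (n : ℤ))]
    have e : Wz z = ∏ p ∈ (range z).filter Nat.Prime, p := rfl
    rw [e]
    congr 1
    apply filter_congr
    intro i _
    rw [← e, cop_Wz]
    apply forall₂_congr
    intro p _
    apply not_congr
    have h2 : (p : ℤ) ∣ F.eval (i : ℤ) - F.eval ((i % p : ℕ) : ℤ) := by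
      refine dvd_trans ?_ (sub_dvd_eval_sub _ _ _)
      push_cast
      exact Int.dvd_self_sub_emod
    constructor
    · intro h
      have := dvd_sub h h2
      simpa using this
    · intro h
      have := dvd_add h2 h
      simpa using this
  have h2 : ∀ p ∈ (range z).filter Nat.Prime,
      (((range p).filter (fun n : ℕ => ¬ (p : ℤ) ∣ F.eval (n : ℤ))).card : ℝ) = p * (1 - (om F p : ℝ) / p) := by
    intro p hp
    have hp0 : (0 : ℝ) < p := by exact_mod_cast (hpr p hp).pos
    have h3 := card_filter_add_card_filter_not (s := range p) (fun n : ℕ => (p : ℤ) ∣ F.eval (n : ℤ))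
    rw [card_range] at h3
    have h4 : ((om F p : ℕ) : ℝ) + (((range p).filter (fun n : ℕ => ¬ (p : ℤ) ∣ F.eval (n : ℤ))).card : ℝ) = p := by
      exact_mod_cast h3
    field_simp
    linarith
  have hpf : (Wz z).primeFactors = (range z).filter Nat.Prime := by
    unfold Wz
    exact Nat.primeFactors_prod hpr
  have hφ : (Nat.totient (Wz z) : ℝ) = Wz z * ∏ p ∈ (range z).filter Nat.Prime, (1 - 1 / (p : ℝ)) := by
    rw [tot_prod, hpf]
  have hprod : 0 < ∏ p ∈ (range z).filter Nat.Prime, (1 - 1 / (p : ℝ)) := by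
    apply prod_pos
    intro p hp
    have : (1 : ℝ) < p := by exact_mod_cast (hpr p hp).one_lt
    have : 1 / (p : ℝ) < 1 := by rw [div_lt_one (by linarith)]; exact this
    linarith
  rw [h1]
  push_cast
  rw [prod_congr rfl h2, prod_mul_distrib]
  have hWe : ∏ p ∈ (range z).filter Nat.Prime, (p : ℝ) = Wz z := by unfold Wz; push_cast; rfl
  rw [hWe, hφ]
  unfold SS
  rw [prod_div_distrib, prod_pow]
  have e : (Wz z : ℝ) / (Wz z * ∏ p ∈ (range z).filter Nat.Prime, (1 - 1 / (p : ℝ))) =
      1 / ∏ p ∈ (range z).filter Nat.Prime, (1 - 1 / (p : ℝ)) := by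
    field_simp
  rw [e, div_pow, one_pow, mul_div_assoc, mul_comm (Wz z : ℝ), div_mul_cancel₀ _ hW0.ne']
  ring

end Pool.Agent.N913.KT
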