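import Pool.Agent.N913.KT.T8

set_option autoImplicit false
set_option linter.unusedSectionVars false

/-! Positions; small values. -/

namespace Pool.Agent.N913.KT

open Finset Polynomial Filter

/-- positions -/
noncomputable def pz {k : ℕ} (τ : Fin k → ℤ[X]) (n i : ℕ) : ℤ :=
  if h : i < k then (τ ⟨i, h⟩).eval (n : ℤ) else 0

theorem roots_le (q : ℤ[X]) (hq : q ≠ 0) (I : Finset ℕ) :
    (I.filter (fun n : ℕ => q.eval (n : ℤ) = 0)).card ≤ q.natDegree := by
  classical
  have h1 : (I.filter (fun n : ℕ => q.eval (n : ℤ) = 0)).card ≤ q.roots.toFinset.card := by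
    apply card_le_card_of_injOn (fun n : ℕ => (n : ℤ))
    · intro n hn
      rw [mem_coe, mem_filter] at hn
      rw [mem_coe, Multiset.mem_toFinset, mem_roots hq]
      exact hn.2
    · intro a _ b _ hab
      simp only at hab
      exact_mod_cast hab
  exact h1.trans ((Multiset.toFinset_card_le _).trans (card_roots' q))

theorem deg_le {k : ℕ} (τ : Fin k → ℤ[X]) (i : Fin k) : (τ i).natDegree ≤ ∑ j, (τ j).natDegree :=
  single_le_sum (f := fun j => (τ j).natDegree) (fun _ _ => Nat.zero_le _) (mem_univ i)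

theorem coll {k : ℕ} (τ : Fin k → ℤ[X]) (hτ : ∀ i, 1 ≤ (τ i).natDegree) (I : Finset ℕ) (n : ℕ) :
    (I.filter (fun n' => ∃ i < k, ∃ j < k, pz τ n i = pz τ n' j)).card ≤
      k * k * ∑ j, (τ j).natDegree := by
  classical
  have hsub : I.filter (fun n' => ∃ i < k, ∃ j < k, pz τ n i = pz τ n' j) ⊆
      (univ : Finset (Fin k × Fin k)).biUnion (fun a =>
        I.filter (fun n' : ℕ => (τ a.2 - C (pz τ n a.1)).eval (n' : ℤ) = 0)) := by
    intro n' hn'
    rw [mem_filter] at hn'
    obtain ⟨h1, i, hi, j, hj, h2⟩ := hn'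
    rw [mem_biUnion]
    refine ⟨(⟨i, hi⟩, ⟨j, hj⟩), mem_univ _, ?_⟩
    rw [mem_filter]
    refine ⟨h1, ?_⟩
    rw [eval_sub, eval_C, h2]
    unfold pz
    rw [dif_pos hj, sub_self]
  refine (card_le_card hsub).trans (card_biUnion_le.trans ?_)
  refine (sum_le_card_nsmul _ _ (∑ j, (τ j).natDegree) ?_).trans (le_of_eq ?_)
  · intro a _
    refine (roots_le _ ?_ I).trans ?_
    · intro h0
      have h3 := hτ a.2
      have h4 : (τ a.2 - C (pz τ n a.1)).natDegree = (τ a.2).natDegree := natDegree_sub_C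
      rw [h0, natDegree_zero] at h4
      omega
    · rw [natDegree_sub_C]
      exact deg_le τ a.2
  · rw [card_univ, Fintype.card_prod, Fintype.card_fin, smul_eq_mul]

theorem irreg {k : ℕ} (τ : Fin k → ℤ[X]) (hinj : Function.Injective τ) (I : Finset ℕ) :
    (I.filter (fun n => ¬ ∀ i < k, ∀ j < k, i ≠ j → pz τ n i ≠ pz τ n j)).card ≤
      k * k * ∑ j, (τ j).natDegree := by
  classical
  have hsub : I.filter (fun n => ¬ ∀ i < k, ∀ j < k, i ≠ j → pz τ n i ≠ pz τ n j) ⊆
      (univ : Finset (Fin k × Fin k)).biUnion (fun a =>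
        I.filter (fun n : ℕ => a.1 ≠ a.2 ∧ (τ a.1 - τ a.2).eval (n : ℤ) = 0)) := by
    intro n hn
    rw [mem_filter] at hn
    obtain ⟨h1, h2⟩ := hn
    push Not at h2
    obtain ⟨i, hi, j, hj, hij, h3⟩ := h2
    rw [mem_biUnion]
    refine ⟨(⟨i, hi⟩, ⟨j, hj⟩), mem_univ _, ?_⟩
    rw [mem_filter]
    refine ⟨h1, ?_, ?_⟩
    · intro h; exact hij (Fin.mk.inj_iff.1 h)
    · rw [eval_sub]
      unfold pz at h3
      rw [dif_pos hi, dif_pos hj] at h3
      rw [h3, sub_self]
  refine (card_le_card hsub).trans (card_biUnion_le.trans ?_)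
  refine (sum_le_card_nsmul _ _ (∑ j, (τ j).natDegree) ?_).trans (le_of_eq ?_)
  · intro a _
    by_cases h : a.1 = a.2
    · rw [filter_false_of_mem (fun n _ hn => hn.1 h), card_empty]
      exact Nat.zero_le _
    · have h2 : I.filter (fun n : ℕ => a.1 ≠ a.2 ∧ (τ a.1 - τ a.2).eval (n : ℤ) = 0) ⊆
          I.filter (fun n : ℕ => (τ a.1 - τ a.2).eval (n : ℤ) = 0) := by
        intro n hn
        rw [mem_filter] at hn ⊢
        exact ⟨hn.1, hn.2.2⟩
      refine (card_le_card h2).trans ((roots_le _ (sub_ne_zero.2 (fun h3 => h (hinj h3))) I).trans ?_)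
      refine (natDegree_sub_le _ _).trans (max_le (deg_le τ _) (deg_le τ _))
  · rw [card_univ, Fintype.card_prod, Fintype.card_fin, smul_eq_mul]

theorem pz_le {k : ℕ} (τ : Fin k → ℤ[X]) : ∃ B : ℝ, 0 ≤ B ∧ ∀ n : ℕ, ∀ y : ℝ, 1 ≤ y → (n : ℝ) ≤ y →
    ∀ i, |(pz τ n i : ℝ)| ≤ B * y ^ (∑ j, (τ j).natDegree) := by
  refine ⟨∑ i, ∑ j ∈ range ((τ i).natDegree + 1), |((τ i).coeff j : ℝ)|, by positivity, ?_⟩
  intro n y hy hn i
  unfold pz
  split_ifs with h
  · obtain ⟨a, ha⟩ : ∃ a : Fin k, a = ⟨i, h⟩ := ⟨_, rfl⟩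
    rw [← ha, eval_eq_sum_range]
    push_cast
    refine (abs_sum_le_sum_abs _ _).trans ?_
    have h1 : ∀ j ∈ range ((τ a).natDegree + 1), |((τ a).coeff j : ℝ) * (n : ℝ) ^ j| ≤
        |((τ a).coeff j : ℝ)| * y ^ (∑ j, (τ j).natDegree) := by
      intro j hj
      rw [mem_range] at hj
      rw [abs_mul, abs_pow, Nat.abs_cast]
      apply mul_le_mul_of_nonneg_left _ (abs_nonneg _)
      have := deg_le τ a
      exact (pow_le_pow_left₀ (Nat.cast_nonneg _) hn j).trans (pow_le_pow_right₀ hy (by omega))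
    refine (sum_le_sum h1).trans ?_
    rw [← sum_mul]
    apply mul_le_mul_of_nonneg_right _ (by positivity)
    exact single_le_sum (f := fun i => ∑ j ∈ range ((τ i).natDegree + 1), |((τ i).coeff j : ℝ)|)
      (fun _ _ => by positivity) (mem_univ a)
  · push_cast
    rw [abs_zero]
    positivity

theorem pol_diff {N : ℕ} (P : ℤ[X]) (c c' : Fin N → ℤ) (x : ℤ) :
    (pol P c).eval x - (pol P c').eval x = ∑ i : Fin N, (c i - c' i) * x ^ (i : ℕ) := by
  unfold pol
  rw [eval_add, eval_add, eval_finsetSum, eval_finsetSum]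
  have : ∀ c : Fin N → ℤ, ∑ i, eval x (C (c i) * X ^ (i : ℕ)) = ∑ i : Fin N, c i * x ^ (i : ℕ) := by
    intro c
    apply sum_congr rfl
    intro i _
    rw [eval_mul, eval_C, eval_pow, eval_X]
  rw [this, this, add_sub_add_left_eq_sub, ← sum_sub_distrib]
  apply sum_congr rfl
  intro i _
  ring

/-- the box -/
noncomputable def box (N H : ℕ) : Finset (Fin N → ℤ) := Fintype.piFinset (fun _ => Icc (-(H : ℤ)) H)

theorem small_one {N : ℕ} (hN : 1 ≤ N) (P : ℤ[X]) (H Z : ℕ) (t : ℤ) :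
    ((box N H).filter (fun c => |(pol P c).eval t| ≤ Z)).card ≤ (2 * Z + 1) * (2 * H + 1) ^ (N - 1) := by
  classical
  obtain ⟨i0, hi0⟩ : ∃ i0 : Fin N, (i0 : ℕ) = 0 := ⟨⟨0, hN⟩, rfl⟩
  have h1 : ((box N H).filter (fun c => |(pol P c).eval t| ≤ Z)).card ≤
      (Fintype.piFinset (Function.update (fun _ => Icc (-(H : ℤ)) H) i0 (Icc (-(Z : ℤ)) Z))).card := by
    apply card_le_card_of_injOn (fun c => Function.update c i0 ((pol P c).eval t))
    · intro c hc
      rw [mem_coe, mem_filter] at hc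
      unfold box at hc
      rw [Fintype.mem_piFinset] at hc
      rw [mem_coe, Fintype.mem_piFinset]
      intro i
      simp only
      by_cases hi : i = i0
      · subst hi
        rw [Function.update_self, Function.update_self, mem_Icc]
        exact abs_le.1 hc.2
      · rw [Function.update_of_ne hi, Function.update_of_ne hi]
        exact hc.1 i
    · intro c hc c' hc' h
      simp only at h
      have h2 : ∀ i, i ≠ i0 → c i = c' i := by
        intro i hi
        have := congrFun h i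
        rwa [Function.update_of_ne hi, Function.update_of_ne hi] at this
      have h3 : (pol P c).eval t = (pol P c').eval t := by
        have := congrFun h i0
        rwa [Function.update_self, Function.update_self] at this
      have h4 := pol_diff P c c' t
      rw [h3, sub_self, sum_eq_single i0 (fun i _ hi => by rw [h2 i hi, sub_self, zero_mul])
        (fun h => absurd (mem_univ _) h), hi0, pow_zero, mul_one] at h4
      funext i
      by_cases hi : i = i0
      · rw [hi]; linarith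
      · exact h2 i hi
  refine h1.trans (le_of_eq ?_)
  rw [Fintype.card_piFinset, ← mul_prod_erase univ _ (mem_univ i0), Function.update_self, Int.card_Icc]
  congr 1
  · omega
  · rw [prod_congr rfl (g := fun _ => 2 * H + 1) (fun j hj => by
      rw [Function.update_of_ne (ne_of_mem_erase hj), Int.card_Icc]; omega), prod_const,
      card_erase_of_mem (mem_univ i0), card_univ, Fintype.card_fin]

open Classical in
theorem small_all {N : ℕ} (hN : 1 ≤ N) (P : ℤ[X]) (H Z T : ℕ) :
    ((box N H).filter (fun c => ∃ t : ℤ, |t| ≤ T ∧ |(pol P c).eval t| ≤ Z)).card ≤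
      (2 * T + 1) * ((2 * Z + 1) * (2 * H + 1) ^ (N - 1)) := by
  classical
  have hsub : (box N H).filter (fun c => ∃ t : ℤ, |t| ≤ T ∧ |(pol P c).eval t| ≤ Z) ⊆
      (Icc (-(T : ℤ)) T).biUnion (fun t => (box N H).filter (fun c => |(pol P c).eval t| ≤ Z)) := by
    intro c hc
    rw [mem_filter] at hc
    obtain ⟨h1, t, h2, h3⟩ := hc
    rw [mem_biUnion]
    exact ⟨t, mem_Icc.2 (abs_le.1 h2), mem_filter.2 ⟨h1, h3⟩⟩
  refine (card_le_card hsub).trans (card_biUnion_le.trans ?_)
  refine (sum_le_card_nsmul _ _ _ (fun t _ => small_one hN P H Z t)).trans (le_of_eq ?_)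
  rw [Int.card_Icc, smul_eq_mul]
  congr 1
  omega

/-- residues of a vector -/
def rs {N : ℕ} (W : ℕ) (c : Fin N → ℤ) : Fin N → ℤ := fun i => c i % W

theorem Bx_rs {N : ℕ} (H W : ℕ) (cs : Fin N → ℤ) (hcs : ∀ i, cs i ∈ Ico (0 : ℤ) W) :
    Bx H W cs = (box N H).filter (fun c => rs W c = cs) := by
  ext c
  rw [mem_Bx, mem_filter]
  unfold box rs
  rw [Fintype.mem_piFinset]
  simp only [mem_Icc]
  constructor
  · intro h
    refine ⟨fun i => abs_le.1 (h i).1, ?_⟩
    funext i
    have h1 := (h i).2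
    have h2 := mem_Ico.1 (hcs i)
    have h3 : c i % W = cs i % W := (Int.emod_emod_of_dvd (c i) (dvd_refl (W : ℤ))) ▸
      ((Int.emod_emod_of_dvd (cs i) (dvd_refl (W : ℤ))) ▸ by
        have h4 : cs i ≡ c i [ZMOD W] := Int.modEq_iff_dvd.2 h1
        rw [Int.emod_emod_of_dvd _ (dvd_refl _), Int.emod_emod_of_dvd _ (dvd_refl _)]
        exact h4.symm)
    rw [h3]
    exact Int.emod_eq_of_lt h2.1 h2.2
  · intro h i
    refine ⟨abs_le.2 (h.1 i), ?_⟩
    have h1 : c i % W = cs i := congrFun h.2 i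
    rw [← h1]
    exact Int.dvd_self_sub_emod

theorem part {N : ℕ} (H W : ℕ) (hW : 1 ≤ W) (B : Finset (Fin N → ℤ)) (hB : B ⊆ box N H) (lam : ℝ)
    (hlam : ∀ cs : Fin N → ℤ, ((B.filter (fun c => rs W c = cs)).card : ℝ) ≤ lam * (Bx H W cs).card) :
    (B.card : ℝ) ≤ lam * (2 * H + 1) ^ N := by
  classical
  have hW0 : (0 : ℤ) < W := by exact_mod_cast hW
  have hmaps : ∀ c : Fin N → ℤ, rs W c ∈ Fintype.piFinset (fun _ : Fin N => Ico (0 : ℤ) W) := by
    intro c
    rw [Fintype.mem_piFinset]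
    intro i
    rw [mem_Ico]
    exact ⟨Int.emod_nonneg _ hW0.ne', Int.emod_lt_of_pos _ hW0⟩
  have h1 := card_eq_sum_card_fiberwise (s := B) (f := rs W)
    (t := Fintype.piFinset (fun _ : Fin N => Ico (0 : ℤ) W)) (fun c _ => hmaps c)
  have h2 := card_eq_sum_card_fiberwise (s := box N H) (f := rs W)
    (t := Fintype.piFinset (fun _ : Fin N => Ico (0 : ℤ) W)) (fun c _ => hmaps c)
  have h3 : (box N H).card = (2 * H + 1) ^ N := by
    unfold box
    rw [Fintype.card_piFinset, prod_const, card_univ, Fintype.card_fin, Int.card_Icc]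
    congr 1
    omega
  have h4 : ((2 * (H : ℝ) + 1) ^ N) = ∑ cs ∈ Fintype.piFinset (fun _ : Fin N => Ico (0 : ℤ) W),
      ((Bx H W cs).card : ℝ) := by
    have h5 : ((2 * (H : ℝ) + 1) ^ N) = (((box N H).card : ℕ) : ℝ) := by rw [h3]; push_cast; ring
    rw [h5, h2]
    push_cast
    apply sum_congr rfl
    intro cs hcs
    rw [Bx_rs H W cs (fun i => Fintype.mem_piFinset.1 hcs i)]
  rw [h4, mul_sum, h1]
  push_cast
  exact sum_le_sum fun cs _ => hlam cs

end Pool.Agent.N913.KT
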